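import Pool.Agent.Lib.MP_bb37eb_nt.P.Const

/-! A Brauer class on the projective line is constant. -/

namespace BB37

open Module TensorProduct Polynomial

theorem IsBasisOf.gram_mem {R F C : Type} [CommRing R] [IsDomain R] [IsPrincipalIdealRing R]
    [Field F] [Algebra R F] [IsFractionRing R F] [Ring C] [Algebra R C] [Algebra F C]
    [IsScalarTower R F C] {m : ℕ} {b : Basis (Fin m) F C} {Λ : Subalgebra R C}
    (hb : IsBasisOf R b Λ) : ∃ r : R, (gram F b).det = algebraMap R F r := by
  obtain ⟨c, hc⟩ := hb.basis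
  refine ⟨(gram R c).det, ?_⟩
  have h1 : gram F b = (algebraMap R F).mapMatrix (gram R c) := by
    ext i j
    show rtr F (b i * b j) = algebraMap R F (rtr R (c i * c j))
    rw [hb.rtr_eq, Subalgebra.coe_mul, hc, hc]
  rw [h1, ← RingHom.map_det]

theorem gen_fractionRing (K : Type) [Field K] :
    IsGen K (algebraMap K[X] (FractionRing K[X]) X) := by
  have h : ∀ f : K[X], aeval (algebraMap K[X] (FractionRing K[X]) X) f =
      algebraMap K[X] (FractionRing K[X]) f := fun f => by
    rw [aeval_algebraMap_apply, aeval_X_left_apply]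
  refine ⟨fun f g hfg => ?_, fun z => ?_⟩
  · rw [h, h] at hfg
    exact IsFractionRing.injective _ _ hfg
  · obtain ⟨p, q, hq, rfl⟩ := IsFractionRing.div_surjective (A := K[X]) z
    refine ⟨p, q, ?_, by rw [h, h]⟩
    rw [h, Ne, IsFractionRing.to_map_eq_zero_iff]
    exact nonZeroDivisors.ne_zero hq

/-- The sections embed in the fibres, hence are isomorphic to them. -/
theorem glob_equiv {K : Type} [Field K] {F D : Type} [Field F] [Algebra K F] {x : F}
    (hx : IsGen K x) [DivisionRing D] [Algebra F D] [Algebra K D] [IsScalarTower K F D]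
    (O : Subalgebra K F) {m : ℕ} [IsDomain O] [IsPrincipalIdealRing O] [IsFractionRing O F]
    (G : Subalgebra K D) [FiniteDimensional K G] (hG : m ≤ finrank K G) (Λ : Subalgebra O D)
    (hle : ∀ z ∈ G, z ∈ Λ) (b : Basis (Fin m) F D) (hb : IsBasisOf O b Λ)
    [Algebra O K] [IsScalarTower K O K] : Nonempty (G ≃ₐ[K] K ⊗[O] Λ) := by
  obtain ⟨c, hc⟩ := hb.basis
  have hK : ∀ t : K, algebraMap O K (algebraMap K O t) = t := fun t => by
    rw [← IsScalarTower.algebraMap_apply K O K]
    rfl
  let g : G →ₐ[K] K ⊗[O] Λ :=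
    { toFun := fun z => 1 ⊗ₜ ⟨z, hle z z.2⟩
      map_one' := rfl
      map_mul' := fun z w => by
        rw [Algebra.TensorProduct.tmul_mul_tmul, one_mul]
        rfl
      map_zero' := TensorProduct.tmul_zero _ _
      map_add' := fun z w => by
        rw [← TensorProduct.tmul_add]
        rfl
      commutes' := fun t => by
        have h1 : (⟨(algebraMap K G t : G), hle _ (algebraMap K G t).2⟩ : Λ) =
            (algebraMap K O t) • (1 : Λ) := by
          apply Subtype.ext
          show algebraMap K D t = (algebraMap K O t) • (1 : D)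
          rw [← Algebra.algebraMap_eq_smul_one]
          have h2 : algebraMap O D (algebraMap K O t) = algebraMap F D (algebraMap K F t) := rfl
          rw [h2, ← IsScalarTower.algebraMap_apply]
        rw [h1, TensorProduct.tmul_smul, TensorProduct.smul_tmul', Algebra.smul_def, mul_one, hK]
        rfl }
  have hfin : Module.Finite K (K ⊗[O] Λ) := Module.Finite.of_basis (Basis.baseChange K c)
  have hrank : finrank K (K ⊗[O] Λ) = m := by
    rw [finrank_eq_card_basis (Basis.baseChange K c), Fintype.card_fin]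
  have hm : 0 < m := by
    have : Nonempty (Fin m) := by
      by_contra h
      rw [not_nonempty_iff] at h
      exact one_ne_zero (b.ext_elem fun i => h.elim i : (1 : D) = 0)
    exact Fin.pos_iff_nonempty.2 this
  have hnt : Nontrivial (K ⊗[O] Λ) := by
    apply nontrivial_of_finrank_pos (R := K)
    rw [hrank]
    exact hm
  have hinj : Function.Injective g := by
    rw [injective_iff_map_eq_zero]
    intro z hz
    by_contra hne
    have h1 : Function.Injective (LinearMap.mulLeft K z) := by
      rw [← LinearMap.ker_eq_bot, LinearMap.ker_eq_bot']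
      intro w hw
      have h2 : (z : D) * w = 0 := congrArg (fun t : G => (t : D)) hw
      rcases mul_eq_zero.1 h2 with h3 | h3
      · exact absurd (Subtype.ext h3) hne
      · exact Subtype.ext h3
    have h4 := LinearMap.injective_iff_surjective.1 h1
    obtain ⟨w, hw⟩ := h4 1
    have h5 : g z * g w = 1 := by
      rw [← map_mul]
      have : z * w = 1 := hw
      rw [this, map_one]
    rw [hz, zero_mul] at h5
    exact zero_ne_one h5
  have hle1 : finrank K G ≤ finrank K (K ⊗[O] Λ) :=
    LinearMap.finrank_le_finrank_of_injective (f := g.toLinearMap) hinj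
  have heq : finrank K G = finrank K (K ⊗[O] Λ) := le_antisymm hle1 (by rw [hrank]; exact hG)
  have hsurj : Function.Surjective g :=
    (LinearMap.injective_iff_surjective_of_finrank_eq_finrank (f := g.toLinearMap) heq).1 hinj
  exact ⟨AlgEquiv.ofBijective g ⟨hinj, hsurj⟩⟩

/-- A class on the projective line comes from one algebra. -/
theorem line_exists_global (K : Type) [Field K] [CharZero K] (α β : LineClass K)
    (hαβ : ∀ (K' : Type) [Field K'] [CharZero K'] [Algebra K K'] (t : K'), t ≠ 0 →
      α.ev K' t = β.ev K' t⁻¹) :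
    ∃ (G : Type) (_ : Ring G) (_ : Algebra K G), ∀ a : K, ∃ B : CSA.{0, 0} K,
      α.ev K a = Quotient.mk (Brauer.CSA_Setoid K) B ∧ MatEq K G B := by
  obtain ⟨F, _, _, _, x, hx⟩ : ∃ (F : Type) (_ : Field F) (_ : CharZero F) (_ : Algebra K F)
      (x : F), IsGen K x :=
    ⟨FractionRing K[X], inferInstance,
      charZero_of_injective_algebraMap (algebraMap K (FractionRing K[X])).injective,
      inferInstance, _, gen_fractionRing K⟩
  obtain ⟨D, _, _, _, hD⟩ := exists_skew F (α.ev F x)
  have hD' : ∀ B : CSA.{0, 0} F, β.ev F x⁻¹ = Quotient.mk (Brauer.CSA_Setoid F) B →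
      MatEq F D B := fun B hB => hD B (by rw [hαβ F x hx.ne_zero, hB])
  letI : Algebra K D := Algebra.compHom D (algebraMap K F)
  have : IsScalarTower K F D := IsScalarTower.of_algebraMap_eq fun _ => rfl
  have j1 : IsPrincipalIdealRing (polyRing K x) := polyRing_pid K x
  have j2 : IsFractionRing (polyRing K x) F := polyRing_frac hx
  have j3 : IsPrincipalIdealRing (inftyRing K x) := locRing_pid hx.inv (primeAt 0)
  have j4 : IsFractionRing (inftyRing K x) F := locRing_frac hx.inv (primeAt 0)
  obtain ⟨Λ, hΛ⟩ := exists_maxOrd (polyRing K x) F D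
  obtain ⟨Λ', hΛ'⟩ := exists_maxOrd (inftyRing K x) F D
  obtain ⟨b, hb⟩ := hΛ.1.exists_basis (F := F)
  obtain ⟨c, hc⟩ := hΛ'.1.exists_basis (F := F)
  -- the finite places
  have hplace : ∀ p : K[X], ∀ hp : Prime p, ∀ (P : Ideal K[X]) [P.IsPrime],
      ∀ hP : P = Ideal.span {p},
      IsMaxOrd (locRing K x P) (locOrd (polyElt_prime hx hp) (locRing_isLocOf hx hp P hP) Λ) ∧
      IsBasisOf (locRing K x P) b
        (locOrd (polyElt_prime hx hp) (locRing_isLocOf hx hp P hP) Λ) := by
    intro p hp P _ hP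
    have i2 : IsPrincipalIdealRing (locRing K x P) := locRing_pid hx P
    have i3 : IsFractionRing (locRing K x P) F := locRing_frac hx P
    exact ⟨locOrd_isMaxOrd _ _ hΛ, locOrd_isBasisOf _ _ hb⟩
  have hunit : ∀ p : K[X], Prime p → ∀ (P : Ideal K[X]) [P.IsPrime], P = Ideal.span {p} →
      ∃ u : (locRing K x P)ˣ, (gram F b).det = ((u : locRing K x P) : F) := by
    intro p hp P _ hP
    obtain ⟨h1, h2⟩ := hplace p hp P hP
    exact gram_isUnit_of_max α hx P D hD _ h1 b h2
  have hg0 : (gram F b).det ≠ 0 := by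
    obtain ⟨u, hu⟩ := hunit (X - C 0) (prime_X_sub_C 0) (primeAt 0) rfl
    rw [hu]
    intro h
    exact u.ne_zero (Subtype.ext h)
  obtain ⟨a₀, ha₀, hga⟩ := const_of_unit hx (gram F b).det hg0 (by
    obtain ⟨r, hr⟩ := hb.gram_mem
    rw [hr]
    exact r.2) (by
    intro p hp P _ hP
    obtain ⟨u, hu⟩ := hunit p hp P hP
    have h1 : ((u : locRing K x P) : F) * ((u⁻¹ : (locRing K x P)ˣ) : locRing K x P) = 1 := by
      have := congrArg (fun t : locRing K x P => (t : F)) u.mul_inv
      exact this
    rw [hu, inv_eq_of_mul_eq_one_right h1]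
    exact Subtype.mem _)
  -- the place at infinity
  obtain ⟨u', hu'⟩ := gram_isUnit_of_max β hx.inv (primeAt 0) D hD' Λ' hΛ' c hc
  have hT : ∃ u : (inftyRing K x)ˣ, (c.toMatrix b).det = ((u : inftyRing K x) : F) := by
    have h1 := gram_change F D b c
    have hu0 : ((u' : inftyRing K x) : F) ≠ 0 := fun h => u'.ne_zero (Subtype.ext h)
    have h2 : (c.toMatrix b).det ^ 2 * ((u' : inftyRing K x) : F) = algebraMap K F a₀ := by
      rw [← hga, h1, hu']
    have h3 : (c.toMatrix b).det ^ 2 = algebraMap (inftyRing K x) F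
        (algebraMap K (inftyRing K x) a₀ * ((u'⁻¹ : (inftyRing K x)ˣ) : inftyRing K x)) := by
      have h4 : ((u' : inftyRing K x) : F) * ((u'⁻¹ : (inftyRing K x)ˣ) : inftyRing K x) = 1 :=
        congrArg (fun t : inftyRing K x => (t : F)) u'.mul_inv
      have h5 : (c.toMatrix b).det ^ 2 =
          algebraMap K F a₀ * ((u'⁻¹ : (inftyRing K x)ˣ) : inftyRing K x) := by
        rw [← h2, mul_assoc, h4, mul_one]
      exact h5
    obtain ⟨y, hy⟩ := IsIntegrallyClosed.exists_algebraMap_eq_of_isIntegral_pow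
      (R := inftyRing K x) (K := F) (n := 2) two_pos
      (show IsIntegral (inftyRing K x) ((c.toMatrix b).det ^ 2) by
        rw [h3]; exact isIntegral_algebraMap)
    have h6 : y ^ 2 = algebraMap K (inftyRing K x) a₀ *
        ((u'⁻¹ : (inftyRing K x)ˣ) : inftyRing K x) := by
      apply IsFractionRing.injective (inftyRing K x) F
      rw [map_pow, hy, h3]
    have h7 : IsUnit (y ^ 2) := by
      rw [h6]
      exact (IsUnit.map _ (IsUnit.mk0 a₀ ha₀)).mul (u'⁻¹).isUnit
    obtain ⟨v, hv⟩ := (isUnit_pow_iff two_ne_zero).1 h7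
    exact ⟨v, by rw [hv]; exact hy.symm⟩
  obtain ⟨hfin, hdim⟩ := glob_dim hx hb hc hT
  refine ⟨glob Λ Λ', inferInstance, inferInstance, fun a => ?_⟩
  obtain ⟨φ, hφ⟩ := exists_evalAt hx a
  letI k1 : Algebra (locRing K x (primeAt a)) K := φ.toRingHom.toAlgebra
  have k2 : IsScalarTower K (locRing K x (primeAt a)) K :=
    IsScalarTower.of_algebraMap_eq fun t => (φ.commutes t).symm
  have i2 : IsPrincipalIdealRing (locRing K x (primeAt a)) := locRing_pid hx _
  have i3 : IsFractionRing (locRing K x (primeAt a)) F := locRing_frac hx _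
  obtain ⟨h1, h2⟩ := hplace (X - C a) (prime_X_sub_C a) (primeAt a) rfl
  have hk : Function.Surjective (algebraMap (locRing K x (primeAt a)) K) := fun t =>
    ⟨algebraMap K _ t, φ.commutes t⟩
  obtain ⟨B, hB, hm⟩ := fibre_class α hx (primeAt a) D hD _ h1 K hk
  have hcoord : algebraMap (locRing K x (primeAt a)) K (coord K x (primeAt a)) = a := by
    have := hφ X
    rw [eval_X] at this
    exact this
  rw [hcoord] at hB
  refine ⟨B, hB, ?_⟩
  obtain ⟨e⟩ := glob_equiv hx (locRing K x (primeAt a)) (glob Λ Λ') hdim _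
    (fun z hz => le_locOrd _ _ (mem_glob.1 hz).1) b h2
  exact (MatEq.of_equiv e).trans hm

/-- A Brauer class on the projective line is constant. -/
theorem P_const (K : Type) [Field K] [CharZero K] (α β : LineClass K)
    (hαβ : ∀ (K' : Type) [Field K'] [CharZero K'] [Algebra K K'] (t : K'), t ≠ 0 →
      α.ev K' t = β.ev K' t⁻¹) (a b : K) : α.ev K a = α.ev K b := by
  obtain ⟨G, _, _, h⟩ := line_exists_global K α β hαβ
  obtain ⟨A, hA, eA⟩ := h a
  obtain ⟨B, hB, eB⟩ := h b
  rw [hA, hB]
  exact mk_eq_of_matEq (eA.symm.trans eB)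

end BB37
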