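import Mathlib

/-! The cokernel of a matrix over a ring with a uniformizer. -/

namespace BB37

/-- If the determinant is a unit then `W = ⊥` works. -/
theorem coker_le_of_isUnit (K O : Type) [Field K] [CommRing O] [Algebra K O] (m : ℕ)
    (k : ℕ) (T : Matrix (Fin m) (Fin m) O) (h : IsUnit T.det) :
    ∃ W : Submodule K (Fin m → O), FiniteDimensional K W ∧ Module.finrank K W ≤ k ∧
      ∀ v : Fin m → O, ∃ w ∈ W, ∃ z : Fin m → O, v = w + T.mulVec z := by
  refine ⟨⊥, inferInstance, by simp, fun v => ⟨0, by simp, T⁻¹.mulVec v, ?_⟩⟩
  rw [Matrix.mulVec_mulVec, Matrix.mul_nonsing_inv T h]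
  simp

/-- The reduction modulo `y` as a ring homomorphism to `K`. -/
theorem exists_reduction (K O : Type) [Field K] [CommRing O] [Algebra K O] (y : O)
    (hy : ∀ z : O, ∃ (c : K) (w : O), z = algebraMap K O c + y * w) (hu : ¬ IsUnit y) :
    ∃ π : O →+* K, π y = 0 ∧ (∀ c : K, π (algebraMap K O c) = c) ∧ ∀ z : O, π z = 0 → y ∣ z := by
  set I : Ideal O := Ideal.span {y} with hI
  have hne : I ≠ ⊤ := by
    intro h
    exact hu (Ideal.span_singleton_eq_top.mp h)
  have : Nontrivial (O ⧸ I) := Ideal.Quotient.nontrivial_iff.mpr hne
  let f : K →+* O ⧸ I := (Ideal.Quotient.mk I).comp (algebraMap K O)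
  have hfi : Function.Injective f := f.injective
  have hmky : ∀ w : O, Ideal.Quotient.mk I (y * w) = 0 := by
    intro w
    rw [Ideal.Quotient.eq_zero_iff_mem]
    exact Ideal.mul_mem_right _ _ (Ideal.mem_span_singleton_self y)
  have hfs : Function.Surjective f := by
    intro z
    obtain ⟨z, rfl⟩ := Ideal.Quotient.mk_surjective z
    obtain ⟨c, w, hz⟩ := hy z
    refine ⟨c, ?_⟩
    rw [hz, map_add, hmky, add_zero]
    rfl
  let e : K ≃+* O ⧸ I := RingEquiv.ofBijective f ⟨hfi, hfs⟩
  refine ⟨(e.symm : (O ⧸ I) →+* K).comp (Ideal.Quotient.mk I), ?_, ?_, ?_⟩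
  · have := hmky 1
    rw [mul_one] at this
    simp [this]
  · intro c
    have : Ideal.Quotient.mk I (algebraMap K O c) = e c := rfl
    simp [this]
  · intro z hz
    have hz' : e.symm (Ideal.Quotient.mk I z) = 0 := hz
    rw [map_eq_zero_iff e.symm e.symm.injective, Ideal.Quotient.eq_zero_iff_mem,
      Ideal.mem_span_singleton] at hz'
    exact hz'

/-- Let `O` be a domain over the field `K` in which every element is a constant plus a multiple of
`y`. If `det T = u y ^ k` with `u` a unit, then the cokernel of `T` has dimension at most `k` over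
`K`. -/
theorem coker_le (K O : Type) [Field K] [CommRing O] [IsDomain O] [Algebra K O] (y : O)
    (hy0 : y ≠ 0) (hy : ∀ z : O, ∃ (c : K) (w : O), z = algebraMap K O c + y * w) (m : ℕ) :
    ∀ (k : ℕ) (T : Matrix (Fin m) (Fin m) O), (∃ u : Oˣ, T.det = u * y ^ k) →
    ∃ W : Submodule K (Fin m → O), FiniteDimensional K W ∧ Module.finrank K W ≤ k ∧
      ∀ v : Fin m → O, ∃ w ∈ W, ∃ z : Fin m → O, v = w + T.mulVec z := by
  intro k
  induction k with
  | zero =>
    rintro T ⟨u, hT⟩
    exact coker_le_of_isUnit K O m 0 T (by rw [hT]; simp)
  | succ k ih =>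
    rintro T ⟨u, hT⟩
    by_cases hu : IsUnit y
    · exact coker_le_of_isUnit K O m (k + 1) T (by rw [hT]; exact u.isUnit.mul (hu.pow _))
    obtain ⟨π, hπy, hπc, hπ⟩ := exists_reduction K O y hy hu
    have hdet : (T.map π).det = 0 := by
      have : (T.map π).det = π T.det := (RingHom.map_det π T).symm
      rw [this, hT, map_mul, map_pow, hπy, zero_pow (Nat.succ_ne_zero k), mul_zero]
    obtain ⟨w0, hw0, hw0T⟩ := Matrix.exists_vecMul_eq_zero_iff.mpr hdet
    obtain ⟨i, hi⟩ : ∃ i, w0 i ≠ 0 := by
      by_contra hcon
      push Not at hcon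
      exact hw0 (funext hcon)
    -- normalise
    obtain ⟨w, hwi, hwT⟩ : ∃ w : Fin m → K, w i = 1 ∧ Matrix.vecMul w (T.map π) = 0 := by
      refine ⟨(w0 i)⁻¹ • w0, by simp [hi], ?_⟩
      rw [Matrix.smul_vecMul, hw0T, smul_zero]
    let a : Fin m → O := fun j => algebraMap K O (w j)
    have hdiv : ∀ l, y ∣ (Matrix.vecMul a T) l := by
      intro l
      apply hπ
      have h1 := congrFun hwT l
      simp only [Matrix.vecMul, dotProduct, Matrix.map_apply, Pi.zero_apply] at h1
      simp only [Matrix.vecMul, dotProduct, map_sum, map_mul, a, hπc]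
      exact h1
    choose t ht using hdiv
    let T' : Matrix (Fin m) (Fin m) O := T.updateRow i t
    have hvec : Matrix.vecMul a T = ∑ j, a j • T j := by
      ext l
      simp [Matrix.vecMul, dotProduct, Finset.sum_apply]
    have hdet' : T'.det = u * y ^ k := by
      have h1 : (T.updateRow i (Matrix.vecMul a T)).det = T.det := by
        rw [hvec, Matrix.det_updateRow_sum]
        simp [a, hwi]
      have h2 : Matrix.vecMul a T = y • t := by
        ext l
        rw [ht l]
        simp
      rw [h2, Matrix.det_updateRow_smul, hT] at h1
      have h3 : y * T'.det = y * (u * y ^ k) := by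
        rw [h1]; ring
      exact mul_left_cancel₀ hy0 h3
    obtain ⟨W', hfd, hrk, hW'⟩ := ih T' ⟨u, hdet'⟩
    -- the linear map
    let Λ : (Fin m → O) →ₗ[K] (Fin m → O) :=
      { toFun := fun x => Function.update x i (y * x i - ∑ j ∈ Finset.univ.erase i, a j * x j)
        map_add' := by
          intro x x'
          ext l
          by_cases hl : l = i
          · subst hl
            simp only [Function.update_self, Pi.add_apply, mul_add, Finset.sum_add_distrib]
            ring
          · simp [Function.update_of_ne hl]
        map_smul' := by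
          intro c x
          ext l
          by_cases hl : l = i
          · subst hl
            simp only [Function.update_self, Pi.smul_apply, RingHom.id_apply, smul_sub,
              Finset.smul_sum, mul_smul_comm]
          · simp [Function.update_of_ne hl] }
    have hΛi : ∀ x, Λ x i = y * x i - ∑ j ∈ Finset.univ.erase i, a j * x j := by
      intro x
      exact Function.update_self i _ x
    have hΛne : ∀ x l, l ≠ i → Λ x l = x l := by
      intro x l hl
      exact Function.update_of_ne hl _ x
    let e1 : Fin m → O := Pi.single i 1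
    let W : Submodule K (Fin m → O) := Submodule.span K {e1} ⊔ W'.map Λ
    have : FiniteDimensional K W' := hfd
    have : FiniteDimensional K (W'.map Λ) := inferInstance
    have : FiniteDimensional K (Submodule.span K {e1}) := inferInstance
    refine ⟨W, inferInstance, ?_, ?_⟩
    · have h1 : Module.finrank K W ≤ Module.finrank K (Submodule.span K {e1}) +
          Module.finrank K (W'.map Λ) := Submodule.finrank_add_le_finrank_add_finrank _ _
      have h2 : Module.finrank K (Submodule.span K {e1}) ≤ 1 :=
        le_trans (finrank_span_le_card ({e1} : Set (Fin m → O))) (by simp)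
      have h3 : Module.finrank K (W'.map Λ) ≤ Module.finrank K W' := Submodule.finrank_map_le Λ W'
      omega
    · intro v
      obtain ⟨c, r, hcr⟩ := hy (∑ j, a j * v j)
      obtain ⟨x, hx, z, hz⟩ := hW' (Function.update v i r)
      refine ⟨c • e1 + Λ x, ?_, z, ?_⟩
      · exact Submodule.add_mem_sup (Submodule.smul_mem _ _ (Submodule.mem_span_singleton_self e1))
          (Submodule.mem_map_of_mem hx)
      · have hne : ∀ l, l ≠ i → v l = x l + T.mulVec z l := by
          intro l hl
          have h := congrFun hz l
          rw [Function.update_of_ne hl] at h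
          rw [h]
          simp only [Pi.add_apply, Matrix.mulVec, T', Matrix.updateRow_ne hl]
        have hii : r = x i + ∑ l, t l * z l := by
          have h := congrFun hz i
          rw [Function.update_self] at h
          rw [h]
          simp only [Pi.add_apply, Matrix.mulVec, dotProduct, T', Matrix.updateRow_self]
        have hyt : y * ∑ l, t l * z l = ∑ j, a j * T.mulVec z j := by
          have h1 : y * ∑ l, t l * z l = ∑ l, (Matrix.vecMul a T) l * z l := by
            rw [Finset.mul_sum]
            refine Finset.sum_congr rfl fun l _ => ?_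
            rw [ht l]; ring
          rw [h1]
          have h2 := Matrix.dotProduct_mulVec a T z
          simp only [dotProduct] at h2
          exact h2.symm
        have hsplit : ∀ g : Fin m → O, ∑ j, a j * g j = g i +
            ∑ j ∈ Finset.univ.erase i, a j * g j := by
          intro g
          rw [← Finset.add_sum_erase _ _ (Finset.mem_univ i)]
          simp [a, hwi]
        have hvi : v i = algebraMap K O c + y * x i + (T.mulVec z i +
            ∑ j ∈ Finset.univ.erase i, a j * T.mulVec z j) -
            ∑ j ∈ Finset.univ.erase i, a j * v j := by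
          have h1 := hsplit v
          rw [hcr, hii, mul_add, hyt, hsplit (T.mulVec z)] at h1
          linear_combination -h1
        have hsum : ∑ j ∈ Finset.univ.erase i, a j * v j =
            ∑ j ∈ Finset.univ.erase i, a j * x j +
            ∑ j ∈ Finset.univ.erase i, a j * T.mulVec z j := by
          rw [← Finset.sum_add_distrib]
          refine Finset.sum_congr rfl fun j hj => ?_
          rw [hne j (Finset.ne_of_mem_erase hj)]
          ring
        ext l
        by_cases hl : l = i
        · subst hl
          rw [Pi.add_apply, Pi.add_apply, hΛi, hvi, hsum]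
          simp only [e1, Pi.smul_apply, Pi.single_eq_same, Algebra.smul_def, mul_one]
          ring
        · rw [Pi.add_apply, Pi.add_apply, hΛne _ _ hl, hne l hl]
          simp [e1, Pi.single_eq_of_ne hl]

end BB37
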