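import Mathlib

/-! Modules over a finite dimensional simple algebra. -/

namespace BB37

open Module

/-- A module over a finite dimensional simple algebra of the same dimension as the algebra is
generated by one element. Proof. Make `V` a module over `S` (`letI := Module.compHom V ρ.toRingHom`;
it is then a scalar tower over `k`). `S` is artinian (finite dimensional:
`IsArtinianRing.of_finite k S` or `isArtinian_of_tower`) and simple, so `S` is semisimple and
isotypic (`isSimpleRing_isArtinianRing_iff`, `Mathlib.RingTheory.SimpleModule.Isotypic` and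
`Mathlib.RingTheory.SimpleModule.WedderburnArtin`), every module over it is isotypic
(`IsIsotypic.of_self`). There are a simple left ideal `I` of `S`, `p > 0` and
`S ≃ₗ[S] (Fin p → I)` (`IsIsotypic.linearEquiv_fun`), and `q` with `V ≃ₗ[S] (Fin q → I)`
(`V` is isotypic of type `I`: a simple submodule of `V` is a quotient of `S`, hence
isomorphic to `I`; `IsIsotypicOfType.linearEquiv_fun`). Counting dimensions over `k`:
`p * dim I = q * dim I`, so `p = q` and `V ≃ₗ[S] S`; `v` = image of `1`. -/
theorem cyclic_of_simple (k : Type) [Field k] (S : Type) [Ring S] [Algebra k S] [IsSimpleRing S]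
    [FiniteDimensional k S] (V : Type) [AddCommGroup V] [Module k V] [FiniteDimensional k V]
    (ρ : S →ₐ[k] Module.End k V) (h : finrank k V = finrank k S) :
    ∃ v : V, Function.Surjective (fun s => ρ s v) := by
  letI : Module S V := Module.compHom V ρ.toRingHom
  have hsm : ∀ (s : S) (v : V), s • v = ρ s v := fun s v => rfl
  have htow : IsScalarTower k S V := ⟨fun c s v => by
    rw [hsm, hsm, map_smul, LinearMap.smul_apply]⟩
  have hart : IsArtinianRing S := IsArtinianRing.of_finite k S
  have hiso : IsIsotypic S (S × V) := IsSimpleRing.isIsotypic S (S × V)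
  have hfin : Module.Finite S V := Module.Finite.of_restrictScalars_finite k S V
  obtain ⟨I, hI⟩ := IsAtomic.exists_atom (Submodule S (S × V))
  rw [← isSimpleModule_iff_isAtom] at hI
  have h1 : IsIsotypicOfType S S I :=
    (hiso I).of_injective (LinearMap.inl S S V) LinearMap.inl_injective
  have h2 : IsIsotypicOfType S V I :=
    (hiso I).of_injective (LinearMap.inr S S V) LinearMap.inr_injective
  obtain ⟨p, ⟨e1⟩⟩ := h1.linearEquiv_fun
  obtain ⟨q, ⟨e2⟩⟩ := h2.linearEquiv_fun
  have hfI : FiniteDimensional k I := by
    have h3 : FiniteDimensional k (S × V) := inferInstance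
    exact Module.Finite.of_injective (I.subtype.restrictScalars k) I.subtype_injective
  have hnt : Nontrivial I := IsSimpleModule.nontrivial S I
  have hpos : 0 < finrank k I := finrank_pos
  have d1 : finrank k S = p * finrank k I := by
    rw [(e1.restrictScalars k).finrank_eq, Module.finrank_pi_fintype]
    simp
  have d2 : finrank k V = q * finrank k I := by
    rw [(e2.restrictScalars k).finrank_eq, Module.finrank_pi_fintype]
    simp
  have hpq : q = p := by
    rw [d1, d2] at h
    exact Nat.eq_of_mul_eq_mul_right hpos h
  subst hpq
  let e : S ≃ₗ[S] V := e1.trans e2.symm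
  refine ⟨e 1, fun y => ⟨e.symm y, ?_⟩⟩
  show ρ (e.symm y) (e 1) = y
  rw [← hsm, ← map_smul, smul_eq_mul, mul_one, LinearEquiv.apply_symm_apply]

end BB37
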