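import Pool.Agent.Lib.MP_bb37eb_nt.P.Order
import Pool.Agent.Lib.MP_bb37eb_nt.P.Cyclic

/-! An order over a local principal ideal domain is conjugate into an order with simple fibre. -/

namespace BB37

open Module TensorProduct

section

variable (O k : Type) [CommRing O] [Field k] [Algebra O k] {C : Type} [Ring C] [Algebra O C]

/-- The representation of the fibre of `B` on the fibre of a lattice stable under `B`. -/
noncomputable def fibRep (B : Subalgebra O C) (M : Submodule O C)
    (hM : ∀ b ∈ B, ∀ m ∈ M, b * m ∈ M) : k ⊗[O] B →ₐ[k] Module.End k (k ⊗[O] M) :=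
  Algebra.TensorProduct.lift (Algebra.ofId k _)
    ((Module.End.baseChangeHom O k M).comp
      { toFun := fun b =>
          { toFun := fun m => ⟨(b : C) * (m : C), hM b b.2 m m.2⟩
            map_add' := fun x y => Subtype.ext (mul_add _ _ _)
            map_smul' := fun c x => Subtype.ext (mul_smul_comm _ _ _) }
        map_one' := by ext m; simp
        map_mul' := fun x y => by ext m; simp [mul_assoc]
        map_zero' := by ext m; simp
        map_add' := fun x y => by ext m; simp [add_mul]
        commutes' := fun r => by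
          ext m
          simp [Algebra.algebraMap_eq_smul_one] })
    (fun x y => Algebra.commutes x _)

theorem fibRep_tmul (B : Subalgebra O C) (M : Submodule O C)
    (hM : ∀ b ∈ B, ∀ m ∈ M, b * m ∈ M) (c d : k) (b : B) (m : M) :
    fibRep O k B M hM (c ⊗ₜ b) (d ⊗ₜ m) = (c * d) ⊗ₜ ⟨(b : C) * m, hM b b.2 m m.2⟩ := by
  rw [fibRep, Algebra.TensorProduct.lift_tmul, Module.End.mul_apply, Algebra.ofId_apply,
    Module.algebraMap_end_apply]
  exact (congrArg (fun t => c • t) (LinearMap.baseChange_tmul (A := k) _ d m)).trans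
    (TensorProduct.smul_tmul' c d _)

/-- Nakayama: `M` a finitely generated lattice stable under `B` on the left, whose fibre is generated
by one element over the fibre of `B`; then `M = B u` for some `u ∈ M`.
Proof. The map `M → k ⊗ M`, `m ↦ 1 ⊗ m` is onto (`O → k` is onto), so `v = 1 ⊗ u`. Let
`N = B u` as a submodule of `M` (`{m | ∃ b ∈ B, m = b u}`). For `m : M` there is
`s : k ⊗ B` with `fibRep s v = 1 ⊗ m`, and `s = 1 ⊗ b` for some `b` (onto as before), so
`1 ⊗ (b u) = 1 ⊗ m`. So the image of `N` in `k ⊗ M` is everything and `N = ⊤` by Nakayama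
(`IsLocalRing.map_tensorProduct_mk_eq_top`, for `k = ResidueField O`; in general the kernel of
`O → k` is the maximal ideal `𝔪` (`IsLocalRing.eq_maximalIdeal`,
`RingHom.ker_isMaximal_of_surjective`) and `1 ⊗ m = 0` implies `m ∈ 𝔪 M`; then
`Submodule.le_of_le_smul_of_le_jacobson_bot`). -/
theorem exists_generator [IsLocalRing O] (hk : Function.Surjective (algebraMap O k)) (B : Subalgebra O C)
    (M : Submodule O C) (hM : ∀ b ∈ B, ∀ m ∈ M, b * m ∈ M) (hfg : M.FG)
    (hv : ∃ v : k ⊗[O] M, Function.Surjective (fun s => fibRep O k B M hM s v)) :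
    ∃ u ∈ M, ∀ m ∈ M, ∃ b ∈ B, m = b * u := by
  have hker : RingHom.ker (Algebra.ofId O k) = IsLocalRing.maximalIdeal O :=
    IsLocalRing.eq_maximalIdeal (RingHom.ker_isMaximal_of_surjective (Algebra.ofId O k) hk)
  let e : IsLocalRing.ResidueField O ≃ₐ[O] k :=
    (Ideal.quotientEquivAlgOfEq O hker.symm).trans
      (Ideal.quotientKerAlgEquivOfSurjective (f := Algebra.ofId O k) hk)
  obtain ⟨v, hv⟩ := hv
  have hmk := TensorProduct.mk_surjective O M k hk
  have hmkB := TensorProduct.mk_surjective O B k hk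
  obtain ⟨u, hu⟩ := hmk v
  let N : Submodule O M :=
    { carrier := {m | ∃ b ∈ B, (m : C) = b * u}
      add_mem' := by
        rintro x y ⟨b, hb, hx⟩ ⟨b', hb', hy⟩
        exact ⟨b + b', B.add_mem hb hb', by rw [Submodule.coe_add, hx, hy, add_mul]⟩
      zero_mem' := ⟨0, B.zero_mem, by rw [Submodule.coe_zero, zero_mul]⟩
      smul_mem' := by
        rintro c x ⟨b, hb, hx⟩
        exact ⟨c • b, B.smul_mem hb c, by rw [Submodule.coe_smul, hx, smul_mul_assoc]⟩ }
  have hfin : Module.Finite O M := Module.Finite.iff_fg.2 hfg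
  have hN : N.map (TensorProduct.mk O (IsLocalRing.ResidueField O) M 1) = ⊤ := by
    rw [eq_top_iff]
    intro t _
    let φ := TensorProduct.congr e.toLinearEquiv (LinearEquiv.refl O M)
    obtain ⟨m, hm⟩ := hmk (φ t)
    obtain ⟨s, hs⟩ := hv (φ t)
    obtain ⟨b, hb⟩ := hmkB s
    refine ⟨⟨(b : C) * u, hM b b.2 u u.2⟩, ⟨b, b.2, rfl⟩, ?_⟩
    apply φ.injective
    rw [← hs]
    show φ (1 ⊗ₜ _) = fibRep O k B M hM s v
    rw [← hb, ← hu]
    show φ (1 ⊗ₜ _) = fibRep O k B M hM ((1 : k) ⊗ₜ b) ((1 : k) ⊗ₜ u)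
    rw [fibRep_tmul, TensorProduct.congr_tmul, one_mul]
    congr 1
    exact map_one e
  rw [IsLocalRing.map_tensorProduct_mk_eq_top] at hN
  refine ⟨u, u.2, fun m hm => ?_⟩
  have h1 : (⟨m, hm⟩ : M) ∈ N := by
    rw [hN]
    trivial
  obtain ⟨b, hb, h2⟩ := h1
  exact ⟨b, hb, h2⟩

end

section

variable (O F k : Type) [CommRing O] [IsDomain O] [IsPrincipalIdealRing O] [IsLocalRing O]
  [Field F] [Algebra O F] [IsFractionRing O F] [Field k] [Algebra O k] {C : Type} [Ring C]
  [Algebra O C] [Algebra F C] [IsScalarTower O F C] [FiniteDimensional F C]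

include F

/-- An order over a local principal ideal domain is conjugate into any order with simple fibre.
Proof. Let `M = toSubmodule B * toSubmodule Γ` (product of submodules of `C`, `Submodule.mul`);
finitely generated (`Submodule.FG.mul`), `B M ⊆ M`, `M Γ ⊆ M` (associativity and
`Subalgebra.mul_toSubmodule_le` or `Submodule.mul_mem_mul` and induction), `1 ∈ M`, `M` spans `C`
over `F` (contains `Γ`), torsion free over `O`, hence free of rank `dim C`
(`Submodule.IsLattice.free`, `Submodule.IsLattice.rank'` as in `IsOrd.exists_basis`). The fibre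
`k ⊗ M` and the fibre `k ⊗ B` have dimension `dim C` over `k` (`Module.finrank_baseChange`),
so `cyclic_of_simple` applies to `fibRep`, and `exists_generator` gives `u ∈ M` with
`M = B u`. `1 ∈ M` gives `b u = 1`; `C` is finite dimensional over `F`, so `u` is a unit
(left inverse implies unit: `C` is artinian/Noetherian, `IsDedekindFiniteMonoid` or
`LinearMap.mulLeft`/`mulRight` injective implies surjective). For `x ∈ Γ`, `u x ∈ M Γ ⊆ M = B u`, so
`u x = b' u` and `u x u⁻¹ = b' ∈ B`. -/
theorem exists_conj (hk : Function.Surjective (algebraMap O k)) (Γ B : Subalgebra O C)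
    (hΓ : IsOrd O Γ) (hB : IsOrd O B) [IsSimpleRing (k ⊗[O] B)] :
    ∃ u : Cˣ, ∀ x ∈ Γ, (u : C) * x * ((u⁻¹ : Cˣ) : C) ∈ B := by
  classical
  let M : Submodule O C := Subalgebra.toSubmodule B * Subalgebra.toSubmodule Γ
  have hBB : Subalgebra.toSubmodule B * Subalgebra.toSubmodule B ≤ Subalgebra.toSubmodule B := by
    have h := Subalgebra.mul_toSubmodule_le B B
    rwa [sup_idem] at h
  have hΓΓ : Subalgebra.toSubmodule Γ * Subalgebra.toSubmodule Γ ≤ Subalgebra.toSubmodule Γ := by
    have h := Subalgebra.mul_toSubmodule_le Γ Γ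
    rwa [sup_idem] at h
  have hM : ∀ b ∈ B, ∀ m ∈ M, b * m ∈ M := by
    intro b hb m hm
    have h1 : b * m ∈ Subalgebra.toSubmodule B *
        (Subalgebra.toSubmodule B * Subalgebra.toSubmodule Γ) := Submodule.mul_mem_mul hb hm
    rw [← mul_assoc] at h1
    exact mul_le_mul_left hBB _ h1
  have hM' : ∀ m ∈ M, ∀ x ∈ Γ, m * x ∈ M := by
    intro m hm x hx
    have h1 : m * x ∈ (Subalgebra.toSubmodule B * Subalgebra.toSubmodule Γ) *
        Subalgebra.toSubmodule Γ := Submodule.mul_mem_mul hm hx
    rw [mul_assoc] at h1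
    exact mul_le_mul_right hΓΓ _ h1
  have hfg : M.FG := hB.fg.mul hΓ.fg
  have h1M : (1 : C) ∈ M := by
    have h1 : (1 : C) ∈ Subalgebra.toSubmodule B := one_mem B
    have h2 : (1 : C) ∈ Subalgebra.toSubmodule Γ := one_mem Γ
    have h := Submodule.mul_mem_mul h1 h2
    rwa [mul_one] at h
  have hΓM : Subalgebra.toSubmodule Γ ≤ M := by
    intro x hx
    have h1 : (1 : C) ∈ Subalgebra.toSubmodule B := one_mem B
    have h := Submodule.mul_mem_mul h1 hx
    rwa [one_mul] at h
  have hlat : Submodule.IsLattice F M :=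
    { fg := hfg
      span_eq_top := by
        rw [eq_top_iff, ← (hΓ.isLattice F).span_eq_top]
        exact Submodule.span_mono hΓM }
  have hMfin : Module.Finite O M := Submodule.IsLattice.finite F _
  have hMfree : Module.Free O M := Submodule.IsLattice.free F _
  have hMrank : finrank O M = finrank F C :=
    Module.finrank_eq_of_rank_eq (by
      rw [Submodule.IsLattice.rank' F M, Module.finrank_eq_rank])
  obtain ⟨b', hb'⟩ := hB.exists_basis (F := F)
  obtain ⟨c, -⟩ := hb'.basis
  have hBfin : Module.Finite O B := Module.Finite.of_basis c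
  have hBfree : Module.Free O B := Module.Free.of_basis c
  have hBrank : finrank O B = finrank F C := by
    rw [Module.finrank_eq_card_basis c, Fintype.card_fin]
  have hdim : finrank k (k ⊗[O] M) = finrank k (k ⊗[O] B) := by
    rw [Module.finrank_baseChange, Module.finrank_baseChange, hMrank, hBrank]
  have hv := cyclic_of_simple k (k ⊗[O] B) (k ⊗[O] M) (fibRep O k B M hM) hdim
  obtain ⟨u, hu, hgen⟩ := exists_generator O k hk B M hM hfg hv
  obtain ⟨b, hb, hbu⟩ := hgen 1 h1M
  have hub : u * b = 1 := by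
    have hsurj : Function.Surjective (LinearMap.mulRight F u : C →ₗ[F] C) := by
      intro x
      refine ⟨x * b, ?_⟩
      rw [LinearMap.mulRight_apply, mul_assoc, ← hbu, mul_one]
    have hinj : Function.Injective (LinearMap.mulRight F u : C →ₗ[F] C) :=
      LinearMap.injective_iff_surjective.2 hsurj
    apply hinj
    rw [LinearMap.mulRight_apply, LinearMap.mulRight_apply, mul_assoc, ← hbu, mul_one, one_mul]
  refine ⟨⟨u, b, hub, hbu.symm⟩, fun x hx => ?_⟩
  obtain ⟨b'', hb'', h⟩ := hgen (u * x) (hM' u hu x hx)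
  change u * x * b ∈ B
  rw [h, mul_assoc, hub, mul_one]
  exact hb''

/-- A maximal order is isomorphic to any order with simple fibre.
Proof. `u` from `exists_conj`; the order `B' = {x | u x u⁻¹ ∈ B}` (`Subalgebra.comap` of `B` under the
inner automorphism, an order since `B` is one) contains `Γ`, so `B' ≤ Γ` by maximality. So the inner
automorphism carries `Γ` onto `B`. -/
theorem equiv_of_max (hk : Function.Surjective (algebraMap O k)) (Γ B : Subalgebra O C)
    (hΓ : IsMaxOrd O Γ) (hB : IsOrd O B) [IsSimpleRing (k ⊗[O] B)] : Nonempty (Γ ≃ₐ[O] B) := by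
  obtain ⟨u, hu⟩ := exists_conj O F k hk Γ B hΓ.1 hB
  let e : C ≃ₐ[O] C :=
    { toFun := fun x => (u : C) * x * ((u⁻¹ : Cˣ) : C)
      invFun := fun x => ((u⁻¹ : Cˣ) : C) * x * (u : C)
      left_inv := fun x => by
        change ((u⁻¹ : Cˣ) : C) * ((u : C) * x * ((u⁻¹ : Cˣ) : C)) * (u : C) = x
        rw [mul_assoc, mul_assoc, mul_assoc, Units.inv_mul, mul_one, ← mul_assoc, Units.inv_mul,
          one_mul]
      right_inv := fun x => by
        change (u : C) * (((u⁻¹ : Cˣ) : C) * x * (u : C)) * ((u⁻¹ : Cˣ) : C) = x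
        rw [mul_assoc, mul_assoc, mul_assoc, Units.mul_inv, mul_one, ← mul_assoc, Units.mul_inv,
          one_mul]
      map_mul' := fun x y => by
        change (u : C) * (x * y) * ((u⁻¹ : Cˣ) : C) =
          (u : C) * x * ((u⁻¹ : Cˣ) : C) * ((u : C) * y * ((u⁻¹ : Cˣ) : C))
        calc (u : C) * (x * y) * ((u⁻¹ : Cˣ) : C) =
              (u : C) * x * 1 * (y * ((u⁻¹ : Cˣ) : C)) := by
              rw [mul_one, mul_assoc, mul_assoc, mul_assoc]
          _ = (u : C) * x * (((u⁻¹ : Cˣ) : C) * (u : C)) * (y * ((u⁻¹ : Cˣ) : C)) := by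
              rw [Units.inv_mul]
          _ = _ := by simp only [mul_assoc]
      map_add' := fun x y => by
        change (u : C) * (x + y) * ((u⁻¹ : Cˣ) : C) =
          (u : C) * x * ((u⁻¹ : Cˣ) : C) + (u : C) * y * ((u⁻¹ : Cˣ) : C)
        rw [mul_add, add_mul]
      commutes' := fun r => by
        change (u : C) * algebraMap O C r * ((u⁻¹ : Cˣ) : C) = algebraMap O C r
        rw [← Algebra.commutes, mul_assoc, Units.mul_inv, mul_one] }
  have he : ∀ x, e x = (u : C) * x * ((u⁻¹ : Cˣ) : C) := fun _ => rfl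
  let B' : Subalgebra O C := B.comap (e : C →ₐ[O] C)
  have hmem : ∀ x, x ∈ B' ↔ e x ∈ B := fun _ => Iff.rfl
  have hB' : IsOrd O B' := by
    constructor
    · have h1 : Subalgebra.toSubmodule B' =
          (Subalgebra.toSubmodule B).map (e.symm.toLinearMap : C →ₗ[O] C) := by
        ext x
        rw [Submodule.mem_map]
        constructor
        · intro hx
          exact ⟨e x, hx, e.symm_apply_apply x⟩
        · rintro ⟨y, hy, rfl⟩
          change e (e.symm y) ∈ B
          rw [e.apply_symm_apply]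
          exact hy
      rw [h1]
      exact hB.fg.map _
    · intro x
      obtain ⟨r, hr, h⟩ := hB.den (e x)
      refine ⟨r, hr, ?_⟩
      rw [hmem, map_smul]
      exact h
  have hΓB : Γ ≤ B' := fun x hx => (hmem x).2 (hu x hx)
  have hBΓ : B' ≤ Γ := hΓ.2 B' hB' hΓB
  let g : Γ →ₐ[O] B := ((e : C →ₐ[O] C).comp Γ.val).codRestrict B fun x => hu x x.2
  refine ⟨AlgEquiv.ofBijective g ⟨?_, ?_⟩⟩
  · intro x y hxy
    have h1 : e (x : C) = e (y : C) := congrArg (fun t : B => (t : C)) hxy
    exact Subtype.ext (e.injective h1)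
  · rintro ⟨b, hb⟩
    have h1 : e.symm b ∈ Γ := by
      apply hBΓ
      rw [hmem, e.apply_symm_apply]
      exact hb
    refine ⟨⟨e.symm b, h1⟩, Subtype.ext ?_⟩
    exact e.apply_symm_apply b

end

end BB37
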