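import Pool.Agent.Lib.MP_bb37eb_nt.P.Infty
import Pool.Agent.Lib.MP_bb37eb_nt.P.Coker

/-! A vector bundle of degree zero on the projective line has enough sections. -/

namespace BB37

open Polynomial

variable {K F : Type} [Field K] [Field F] [Algebra K F] {x : F}

/-- The global sections of the bundle with transition matrix `T`. -/
def sections (K : Type) [Field K] {F : Type} [Field F] [Algebra K F] (x : F) {m : ℕ}
    (T : Matrix (Fin m) (Fin m) F) : Submodule K (Fin m → K[X]) where
  carrier := {v | ∀ i, T.mulVec (fun j => aeval x (v j)) i ∈ inftyRing K x}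
  add_mem' := by
    intro u v hu hv i
    have e : (fun j => aeval x ((u + v) j)) =
        (fun j => aeval x (u j)) + (fun j => aeval x (v j)) := by
      funext j; simp
    rw [e, Matrix.mulVec_add]
    exact (inftyRing K x).add_mem (hu i) (hv i)
  zero_mem' := by
    intro i
    have e : (fun j => aeval x ((0 : Fin m → K[X]) j)) = (0 : Fin m → F) := by
      funext j; simp
    rw [e, Matrix.mulVec_zero]
    exact (inftyRing K x).zero_mem
  smul_mem' := by
    intro c v hv i
    have e : (fun j => aeval x ((c • v) j)) = c • (fun j => aeval x (v j)) := by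
      funext j; simp
    rw [e, Matrix.mulVec_smul]
    exact (inftyRing K x).smul_mem (hv i) c

/-- Finite dimension: let `T⁻¹` have its entries in `x ^ n • inftyRing` (`infty_pow`, take the
maximum of finitely many exponents). If `v ∈ sections` then
`aeval x (v j) = ∑ i, (T⁻¹) j i * (T v) i`, so `aeval x (v j) * x⁻¹ ^ n ∈ inftyRing` and
`natDegree (v j) ≤ n` by `infty_poly`: `sections` is contained in the finite dimensional space of
vectors with all degrees at most `n` (`Polynomial.degreeLT K (n+1)`, `Submodule.pi`). -/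
theorem sections_finite (hx : IsGen K x) {m : ℕ} (T : Matrix (Fin m) (Fin m) F)
    (hT : T.det ≠ 0) : FiniteDimensional K (sections K x T) := by
  classical
  have hinv : ∀ j i, ∃ n : ℕ, T⁻¹ j i * x⁻¹ ^ n ∈ inftyRing K x := fun j i => infty_pow hx _
  choose N hN using hinv
  set n : ℕ := ∑ j, ∑ i, N j i with hn
  have hNn : ∀ j i, N j i ≤ n := by
    intro j i
    have h1 : N j i ≤ ∑ i, N j i :=
      Finset.single_le_sum (f := fun i => N j i) (fun _ _ => Nat.zero_le _) (Finset.mem_univ i)
    have h2 : ∑ i, N j i ≤ ∑ j, ∑ i, N j i :=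
      Finset.single_le_sum (f := fun j => ∑ i, N j i) (fun _ _ => Nat.zero_le _)
        (Finset.mem_univ j)
    exact h1.trans h2
  have hmem : ∀ j i, T⁻¹ j i * x⁻¹ ^ n ∈ inftyRing K x := by
    intro j i
    obtain ⟨d, hd⟩ := Nat.exists_eq_add_of_le (hNn j i)
    rw [hd, pow_add, ← mul_assoc]
    exact (inftyRing K x).mul_mem (hN j i) ((inftyRing K x).pow_mem inv_mem_infty _)
  have hdeg : ∀ v ∈ sections K x T, ∀ j, (v j).natDegree ≤ n := by
    intro v hv j
    rw [← infty_poly hx]
    have hu : IsUnit T.det := isUnit_iff_ne_zero.2 hT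
    have e : (fun j => aeval x (v j)) = T⁻¹.mulVec (T.mulVec (fun j => aeval x (v j))) := by
      rw [Matrix.mulVec_mulVec, Matrix.nonsing_inv_mul T hu, Matrix.one_mulVec]
    have e2 : aeval x (v j) = ∑ i, T⁻¹ j i * T.mulVec (fun j => aeval x (v j)) i := by
      have := congrFun e j
      rw [Matrix.mulVec, dotProduct] at this
      exact this
    rw [e2, Finset.sum_mul]
    refine (inftyRing K x).sum_mem fun i _ => ?_
    rw [mul_right_comm]
    exact (inftyRing K x).mul_mem (hmem j i) (hv i)
  let φ : sections K x T →ₗ[K] (Fin m → Fin (n + 1) → K) :=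
    LinearMap.pi fun j => LinearMap.pi fun k : Fin (n + 1) =>
      (Polynomial.lcoeff K (k : ℕ)).comp ((LinearMap.proj j).comp (sections K x T).subtype)
  have hφ : Function.Injective φ := by
    intro u v huv
    apply Subtype.ext
    funext j
    ext k
    by_cases hk : k < n + 1
    · exact congrFun (congrFun huv j) ⟨k, hk⟩
    · rw [Polynomial.coeff_eq_zero_of_natDegree_lt, Polynomial.coeff_eq_zero_of_natDegree_lt]
      · have := hdeg _ v.2 j
        omega
      · have := hdeg _ u.2 j
        omega
  exact FiniteDimensional.of_injective φ hφ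

/-- The count (Riemann-Roch for degree zero). Let `O = inftyRing K x`, `y = x⁻¹`. Choose `n` with all
entries of `T * y ^ n` and of `T⁻¹ * y ^ n` in `O`. Let `S = T⁻¹ * y ^ n` as a matrix over `O`; its
determinant is `u * y ^ (m * n)` with `u` a unit of `O`. By `coker_le` there is `W ⊆ O ^ m`, of
dimension at most `m * n`, with `O ^ m = W + S O ^ m`. Let `V` be the space of
`v ∈ K[X] ^ m` with all degrees at most `n`, of dimension `m * (n + 1)`. For `v ∈ V` the vector
`y ^ n v(x)` lies in `O ^ m` (`infty_poly`). The linear map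
`V → O ^ m ⧸ S O ^ m`, `v ↦ y ^ n v(x)` has an image of dimension at most `m * n` (the quotient is
the image of `W`), so its kernel has dimension at least `m (n + 1) - m n = m`; and `v` in the kernel
means `y ^ n v(x) = S z = y ^ n T⁻¹ z`, `z ∈ O ^ m`, so `T v(x) = z ∈ O ^ m`: `v ∈ sections`.
(`LinearMap.finrank_range_add_finrank_ker`, `Submodule.finrank_mono` with `sections_finite`.) -/
theorem sections_ge (hx : IsGen K x) {m : ℕ} (T : Matrix (Fin m) (Fin m) F)
    (hT : ∃ u : (inftyRing K x)ˣ, T.det = ((u : inftyRing K x) : F)) :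
    m ≤ Module.finrank K (sections K x T) := by
  obtain ⟨u, hu⟩ := hT
  have hx0 : x ≠ 0 := hx.ne_zero
  have hu0 : ((u : inftyRing K x) : F) ≠ 0 := by
    intro h
    exact u.ne_zero (Subtype.ext h)
  have hdet : T.det ≠ 0 := by rw [hu]; exact hu0
  have hunit : IsUnit T.det := isUnit_iff_ne_zero.2 hdet
  have hy0 : (⟨x⁻¹, inv_mem_infty⟩ : inftyRing K x) ≠ 0 := by
    intro h
    exact inv_ne_zero hx0 (congrArg Subtype.val h)
  -- the exponent
  have hn : ∃ n : ℕ, ∀ i j, T⁻¹ i j * x⁻¹ ^ n ∈ inftyRing K x := by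
    choose f hf using fun i j => infty_pow hx (T⁻¹ i j)
    refine ⟨Finset.univ.sup fun p : Fin m × Fin m => f p.1 p.2, fun i j => ?_⟩
    have hle : f i j ≤ Finset.univ.sup fun p : Fin m × Fin m => f p.1 p.2 :=
      Finset.le_sup (f := fun p : Fin m × Fin m => f p.1 p.2) (Finset.mem_univ (i, j))
    obtain ⟨k, hk⟩ := Nat.exists_eq_add_of_le hle
    rw [hk, pow_add, ← mul_assoc]
    exact (inftyRing K x).mul_mem (hf i j) ((inftyRing K x).pow_mem inv_mem_infty k)
  obtain ⟨n, hn⟩ := hn
  let S : Matrix (Fin m) (Fin m) (inftyRing K x) := Matrix.of fun i j => ⟨T⁻¹ i j * x⁻¹ ^ n, hn i j⟩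
  have hSval : ((inftyRing K x).val : inftyRing K x →+* F).mapMatrix S = x⁻¹ ^ n • T⁻¹ := by
    ext i j
    simp [S, mul_comm]
  have hSdet : S.det = (u⁻¹ : (inftyRing K x)ˣ) * (⟨x⁻¹, inv_mem_infty⟩ : inftyRing K x) ^ (n * m) := by
    apply Subtype.ext
    have h1 : ((inftyRing K x).val : inftyRing K x →+* F) S.det = (x⁻¹ ^ n • T⁻¹).det := by
      rw [RingHom.map_det, hSval]
    have h2 : (x⁻¹ ^ n • T⁻¹).det = x⁻¹ ^ (n * m) * ((u : inftyRing K x) : F)⁻¹ := by
      rw [Matrix.det_smul, Fintype.card_fin, ← pow_mul, Matrix.det_nonsing_inv, hu,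
        Ring.inverse_eq_inv]
    have h3 : (((u⁻¹ : (inftyRing K x)ˣ) : inftyRing K x) : F) = ((u : inftyRing K x) : F)⁻¹ := by
      apply eq_inv_of_mul_eq_one_left
      have := congrArg Subtype.val (Units.inv_mul u)
      exact this
    have h4 : ((inftyRing K x).val : inftyRing K x →+* F) S.det = ((S.det : inftyRing K x) : F) := rfl
    rw [← h4, h1, h2]
    push_cast
    rw [h3, mul_comm]
  obtain ⟨W, hWf, hWd, hW⟩ := coker_le K (inftyRing K x) ⟨x⁻¹, inv_mem_infty⟩ hy0
    (infty_const hx) m (n * m) S ⟨u⁻¹, hSdet⟩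
  -- the map
  have hmem : ∀ f : Polynomial.degreeLT K (n + 1), aeval x (f : K[X]) * x⁻¹ ^ n ∈ inftyRing K x := by
    intro f
    rw [infty_poly hx]
    have := Polynomial.mem_degreeLT.1 f.2
    by_cases h0 : (f : K[X]) = 0
    · rw [h0]; simp
    · rw [Polynomial.degree_eq_natDegree h0] at this
      have h2 : (f : K[X]).natDegree < n + 1 := by exact_mod_cast this
      omega
  let Φ : (Fin m → Polynomial.degreeLT K (n + 1)) →ₗ[K] (Fin m → inftyRing K x) :=
    { toFun := fun v j => ⟨aeval x (v j : K[X]) * x⁻¹ ^ n, hmem (v j)⟩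
      map_add' := by
        intro v w
        funext j
        apply Subtype.ext
        simp [add_mul]
      map_smul' := by
        intro c v
        funext j
        apply Subtype.ext
        simp }
  let N : Submodule K (Fin m → inftyRing K x) := LinearMap.range (S.mulVecLin.restrictScalars K)
  let Ψ : (Fin m → Polynomial.degreeLT K (n + 1)) →ₗ[K] ((Fin m → inftyRing K x) ⧸ N) :=
    N.mkQ.comp Φ
  have hrange : LinearMap.range Ψ ≤ W.map N.mkQ := by
    rintro _ ⟨v, rfl⟩
    obtain ⟨w, hw, z, hz⟩ := hW (Φ v)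
    refine ⟨w, hw, ?_⟩
    have : Ψ v = N.mkQ (w + S.mulVec z) := by rw [← hz]; rfl
    rw [this, map_add]
    have h0 : N.mkQ (S.mulVec z) = 0 := by
      rw [Submodule.mkQ_apply, Submodule.Quotient.mk_eq_zero]
      exact ⟨z, rfl⟩
    rw [h0, add_zero]
  have hWmap : Module.finrank K (W.map N.mkQ) ≤ n * m := le_trans (Submodule.finrank_map_le _ _) hWd
  have : FiniteDimensional K (W.map N.mkQ) := inferInstance
  have hfd : FiniteDimensional K (Polynomial.degreeLT K (n + 1)) :=
    Module.Finite.equiv (Polynomial.degreeLTEquiv K (n + 1)).symm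
  have hfr : Module.finrank K (Polynomial.degreeLT K (n + 1)) = n + 1 := by
    rw [(Polynomial.degreeLTEquiv K (n + 1)).finrank_eq]
    simp
  have hV : Module.finrank K (Fin m → Polynomial.degreeLT K (n + 1)) = m * (n + 1) := by
    rw [Module.finrank_pi_fintype]
    simp [hfr]
  have hsum := LinearMap.finrank_range_add_finrank_ker Ψ
  have hr : Module.finrank K (LinearMap.range Ψ) ≤ n * m :=
    le_trans (Submodule.finrank_mono hrange) hWmap
  have hker : m ≤ Module.finrank K (LinearMap.ker Ψ) := by
    rw [hV] at hsum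
    have e : m * (n + 1) = n * m + m := by ring
    omega
  refine le_trans hker ?_
  have := sections_finite hx T hdet
  have hsec : ∀ v : LinearMap.ker Ψ, (fun j => ((v : Fin m → Polynomial.degreeLT K (n + 1)) j : K[X])) ∈
      sections K x T := by
    intro v
    have hv : Φ v ∈ N := by
      have h1 : Ψ v = 0 := v.2
      rw [← Submodule.Quotient.mk_eq_zero]
      exact h1
    obtain ⟨z, hz⟩ := hv
    have hz' : T⁻¹.mulVec (fun i => (z i : F)) = fun j => aeval x
        (((v : Fin m → Polynomial.degreeLT K (n + 1)) j : K[X])) := by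
      funext j
      have h1 := congrArg (fun t : Fin m → inftyRing K x => ((t j : inftyRing K x) : F)) hz
      have h2 : (((S.mulVec z) j : inftyRing K x) : F) =
          x⁻¹ ^ n * (T⁻¹.mulVec (fun i => (z i : F))) j := by
        simp only [Matrix.mulVec, dotProduct]
        rw [Finset.mul_sum]
        push_cast
        refine Finset.sum_congr rfl fun i _ => ?_
        simp only [S, Matrix.of_apply]
        ring
      have h3 : (((S.mulVec z) j : inftyRing K x) : F) =
          aeval x (((v : Fin m → Polynomial.degreeLT K (n + 1)) j : K[X])) * x⁻¹ ^ n := h1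
      rw [h2, mul_comm] at h3
      exact mul_right_cancel₀ (pow_ne_zero n (inv_ne_zero hx0)) h3
    intro i
    have e : T.mulVec (fun j => aeval x
        (((v : Fin m → Polynomial.degreeLT K (n + 1)) j : K[X]))) = fun i => (z i : F) := by
      rw [← hz', Matrix.mulVec_mulVec, Matrix.mul_nonsing_inv _ hunit, Matrix.one_mulVec]
    rw [show (fun j => aeval x ((fun j => ((v : Fin m → Polynomial.degreeLT K (n + 1)) j : K[X])) j)) =
      (fun j => aeval x (((v : Fin m → Polynomial.degreeLT K (n + 1)) j : K[X]))) from rfl, e]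
    exact (z i).2
  let ι : LinearMap.ker Ψ →ₗ[K] sections K x T :=
    { toFun := fun v => ⟨_, hsec v⟩
      map_add' := by
        intro v w
        apply Subtype.ext
        funext j
        simp
      map_smul' := by
        intro c v
        apply Subtype.ext
        funext j
        simp }
  refine LinearMap.finrank_le_finrank_of_injective (f := ι) ?_
  intro v w h
  apply Subtype.ext
  funext j
  apply Subtype.ext
  exact congrFun (congrArg Subtype.val h) j

end BB37
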