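import Pool.Agent.Lib.MP_bb37eb_nt.P.Order

/-! Localization of orders at a prime element. -/

namespace BB37

open Module

section

variable {R O F C : Type} [CommRing R] [Field F] [Algebra R F] [CommRing O] [Algebra O F] [Ring C]
  [Algebra R C] [Algebra O C] [Algebra F C] [IsScalarTower R F C] [IsScalarTower O F C]

/-- The localization of an order at a prime element. -/
def locOrd {π : R} (hπ : Prime π) (hO : IsLocOf R O F π) (Λ : Subalgebra R C) :
    Subalgebra O C where
  carrier := {x | ∃ s : R, ¬ π ∣ s ∧ s • x ∈ Λ}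
  mul_mem' := by
    rintro x y ⟨s, hs, hx⟩ ⟨t, ht, hy⟩
    refine ⟨s * t, fun h => (hπ.dvd_or_dvd h).elim hs ht, ?_⟩
    rw [← smul_mul_smul_comm]
    exact Λ.mul_mem hx hy
  add_mem' := by
    rintro x y ⟨s, hs, hx⟩ ⟨t, ht, hy⟩
    refine ⟨s * t, fun h => (hπ.dvd_or_dvd h).elim hs ht, ?_⟩
    rw [smul_add]
    refine Λ.add_mem ?_ ?_
    · rw [mul_comm, mul_smul]
      exact Λ.smul_mem hx t
    · rw [mul_smul]
      exact Λ.smul_mem hy s
  algebraMap_mem' := by
    intro o
    obtain ⟨a, s, hs, h⟩ := hO.frac o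
    refine ⟨s, hs, ?_⟩
    have e : s • algebraMap O C o = algebraMap R C a := by
      rw [IsScalarTower.algebraMap_apply O F C, IsScalarTower.algebraMap_apply R F C, ← h,
        Algebra.smul_def, IsScalarTower.algebraMap_apply R F C, ← map_mul, mul_comm]
    rw [e]
    exact Λ.algebraMap_mem a

theorem mem_locOrd {π : R} {hπ : Prime π} {hO : IsLocOf R O F π} {Λ : Subalgebra R C} {x : C} :
    x ∈ locOrd hπ hO Λ ↔ ∃ s : R, ¬ π ∣ s ∧ s • x ∈ Λ := Iff.rfl

theorem le_locOrd {π : R} (hπ : Prime π) (hO : IsLocOf R O F π) {Λ : Subalgebra R C} {x : C}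
    (hx : x ∈ Λ) : x ∈ locOrd hπ hO Λ :=
  ⟨1, hπ.not_dvd_one, by rwa [one_smul]⟩

end

variable {R O F C : Type} [CommRing R] [IsDomain R] [IsPrincipalIdealRing R] [Field F]
  [Algebra R F] [IsFractionRing R F] [CommRing O] [Algebra O F] [Ring C]
  [Algebra R C] [Algebra O C] [Algebra F C] [IsScalarTower R F C] [IsScalarTower O F C]

/-- A basis of the order is a basis of the localization.
Proof. If `x ∈ locOrd`, `s • x ∈ Λ`, the coordinates of `s • x` are `algebraMap R F s` times those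
of `x` (`algebraMap_smul F s x`) and lie in `R`; multiply by `o` with
`algebraMap R F s * algebraMap O F o = 1` (`hO.inv`), and use `hO.sub`. Conversely, if
the coordinates are `algebraMap O F (o i)`, take `a i`, `s i` from `hO.frac (o i)` and
`s = ∏ s i` (`π` prime: `Prime.dvd_finset_prod_iff`), then the coordinates of `s • x` lie in `R`. -/
theorem locOrd_isBasisOf {π : R} (hπ : Prime π) (hO : IsLocOf R O F π) {Λ : Subalgebra R C}
    {m : ℕ} {b : Basis (Fin m) F C} (hb : IsBasisOf R b Λ) : IsBasisOf O b (locOrd hπ hO Λ) := by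
  classical
  intro x
  have key : ∀ (s : R) (i : Fin m), b.repr (s • x) i = algebraMap R F s * b.repr x i := by
    intro s i
    rw [← algebraMap_smul F s x, map_smul, Finsupp.smul_apply, smul_eq_mul]
  rw [mem_locOrd]
  constructor
  · rintro ⟨s, hs, hx⟩ i
    obtain ⟨r, hr⟩ := (hb _).1 hx i
    rw [key] at hr
    obtain ⟨o, ho⟩ := hO.inv s hs
    obtain ⟨o', ho'⟩ := hO.sub r
    refine ⟨o * o', ?_⟩
    rw [map_mul, ho', ← hr]
    linear_combination (-(b.repr x i)) * ho
  · intro h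
    choose o ho using h
    choose a s hs has using fun i => hO.frac (o i)
    refine ⟨∏ i, s i, ?_, ?_⟩
    · rw [Prime.dvd_finsetProd_iff hπ]
      rintro ⟨i, _, hi⟩
      exact hs i hi
    · rw [hb]
      intro i
      refine ⟨a i * ∏ j ∈ Finset.univ.erase i, s j, ?_⟩
      rw [key, ho i, map_mul, ← has i, ← Finset.mul_prod_erase Finset.univ s (Finset.mem_univ i),
        map_mul]
      ring

/-- The localization of a maximal order is maximal.
Proof. It is an order by `locOrd_isBasisOf`, `IsOrd.exists_basis` and `IsBasisOf.isOrd`. Let `Λ''` be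
an order over `O` containing `locOrd Λ`. Step 1: there is `n` with `π ^ n • x ∈ locOrd Λ` for all
`x ∈ Λ''`: `Λ''` is generated over `O` by finitely many `x i`
(`hΛ''.fg`), `r i • x i ∈ Λ` with `r i ≠ 0` (`hΛ.1.den`),
`r i = π ^ (n i) * g i` with `¬ π ∣ g i` (`IsDomain` + Noetherian:
`FiniteMultiplicity.exists_eq_pow_mul_and_not_dvd`, `FiniteMultiplicity.of_prime_left`), so
`π ^ (n i) • x i ∈ locOrd Λ`; take `n = ∑ n i` or the supremum.
Step 2: `Λ3 := {x | x ∈ Λ'' ∧ ∃ k, π ^ k • x ∈ Λ}` is a subalgebra over `R`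
(`algebraMap R C r ∈ Λ''` by `hO.sub`; `r • x ∈ Λ''` for `x ∈ Λ''` likewise). For `x ∈ Λ3`,
`π ^ n • x ∈ locOrd Λ`, so `g • π ^ n • x ∈ Λ` for some `g` with `¬ π ∣ g`, and
`π ^ k • x ∈ Λ`. `g` and `π ^ k` are coprime in the principal ideal domain `R`
(`Prime.irreducible`, `Irreducible.coprime_iff_not_dvd`, `IsCoprime.pow_left`), `u * g + v * π ^ k = 1`,
so `π ^ n • x = u • g • π ^ n • x + v • π ^ n • π ^ k • x ∈ Λ`. Hence `Λ3` embeds by `x ↦ π ^ n • x`
(injective since `C` is a vector space over `F` and `algebraMap R F (π ^ n) ≠ 0`) in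
`Λ`, a Noetherian `R`-module, so it is finitely generated (`Module.Finite.of_injective`), and
it contains `Λ`, so it is an order. By maximality `Λ3 ≤ Λ`. Step 3: `x ∈ Λ''`: `r • x ∈ Λ` with
`r ≠ 0`, `r = π ^ a * g`, `¬ π ∣ g`; `g • x ∈ Λ3 ≤ Λ`, so `x ∈ locOrd Λ`. -/
theorem locOrd_isMaxOrd [IsDomain O] [IsPrincipalIdealRing O] [IsFractionRing O F]
    [FiniteDimensional F C] {π : R} (hπ : Prime π) (hO : IsLocOf R O F π)
    {Λ : Subalgebra R C} (hΛ : IsMaxOrd R Λ) : IsMaxOrd O (locOrd hπ hO Λ) := by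
  classical
  obtain ⟨b, hb⟩ := hΛ.1.exists_basis (F := F)
  refine ⟨(locOrd_isBasisOf hπ hO hb).isOrd, fun Λ2 hΛ2 hle => ?_⟩
  -- multiplication by elements of `R` is multiplication by elements of `O`
  have hsm : ∀ r : R, ∃ o : O, ∀ x : C, o • x = r • x := by
    intro r
    obtain ⟨o, ho⟩ := hO.sub r
    refine ⟨o, fun x => ?_⟩
    rw [← algebraMap_smul F o x, ho, algebraMap_smul]
  have hR2 : ∀ (r : R) (x : C), x ∈ Λ2 → r • x ∈ Λ2 := by
    intro r x hx
    obtain ⟨o, ho⟩ := hsm r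
    rw [← ho]
    exact Λ2.smul_mem hx o
  -- every element has a denominator which is a power of `π` times a prime-to-`π` element
  have hden : ∀ x : C, ∃ (a : ℕ) (g : R), ¬ π ∣ g ∧ (π ^ a * g) • x ∈ Λ := by
    intro x
    obtain ⟨r, hr, hx⟩ := hΛ.1.den x
    obtain ⟨c, hc, hndvd⟩ := (FiniteMultiplicity.of_prime_left hπ hr).exists_eq_pow_mul_and_not_dvd
    exact ⟨_, c, hndvd, by rw [← hc]; exact hx⟩
  -- Step 1
  have step1 : ∃ n : ℕ, ∀ x ∈ Λ2, π ^ n • x ∈ locOrd hπ hO Λ := by
    obtain ⟨S, hS⟩ := hΛ2.fg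
    choose a g hg hag using hden
    refine ⟨∑ y ∈ S, a y, fun x hx => ?_⟩
    obtain ⟨o, ho⟩ := hsm (π ^ ∑ y ∈ S, a y)
    have h1 : Submodule.span O (S : Set C) ≤
        (Subalgebra.toSubmodule (locOrd hπ hO Λ)).comap (LinearMap.lsmul O C o) := by
      rw [Submodule.span_le]
      intro y hy
      rw [SetLike.mem_coe, Submodule.mem_comap, LinearMap.lsmul_apply, ho,
        Subalgebra.mem_toSubmodule, mem_locOrd]
      refine ⟨g y, hg y, ?_⟩
      obtain ⟨m, hm⟩ : ∃ m, ∑ z ∈ S, a z = m + a y := by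
        refine ⟨∑ z ∈ S.erase y, a z, ?_⟩
        exact (Finset.sum_erase_add S a (by exact_mod_cast hy)).symm
      have e : g y • (π ^ ∑ z ∈ S, a z) • y = π ^ m • (π ^ a y * g y) • y := by
        rw [smul_smul, smul_smul, hm, pow_add]
        congr 1
        ring
      rw [e]
      exact Λ.smul_mem (hag y) _
    have h2 : x ∈ Submodule.span O (S : Set C) := by
      rw [hS]
      exact hx
    have h3 := h1 h2
    rwa [Submodule.mem_comap, LinearMap.lsmul_apply, ho, Subalgebra.mem_toSubmodule] at h3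
  obtain ⟨n, hn⟩ := step1
  -- Step 2
  let Λ3 : Subalgebra R C :=
    { carrier := {x | x ∈ Λ2 ∧ ∃ k : ℕ, π ^ k • x ∈ Λ}
      mul_mem' := by
        rintro x y ⟨hx, k, hk⟩ ⟨hy, l, hl⟩
        refine ⟨Λ2.mul_mem hx hy, k + l, ?_⟩
        rw [pow_add, ← smul_mul_smul_comm]
        exact Λ.mul_mem hk hl
      add_mem' := by
        rintro x y ⟨hx, k, hk⟩ ⟨hy, l, hl⟩
        refine ⟨Λ2.add_mem hx hy, k + l, ?_⟩
        rw [smul_add, pow_add]
        refine Λ.add_mem ?_ ?_
        · rw [mul_comm, mul_smul]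
          exact Λ.smul_mem hk _
        · rw [mul_smul]
          exact Λ.smul_mem hl _
      algebraMap_mem' := by
        intro r
        refine ⟨?_, 0, ?_⟩
        · have h := hR2 r 1 Λ2.one_mem
          rwa [← Algebra.algebraMap_eq_smul_one] at h
        · rw [pow_zero, one_smul]
          exact Λ.algebraMap_mem r }
  have hmem3 : ∀ x, x ∈ Λ3 ↔ x ∈ Λ2 ∧ ∃ k : ℕ, π ^ k • x ∈ Λ := fun x => Iff.rfl
  have hle3 : Λ ≤ Λ3 := fun x hx =>
    ⟨hle (le_locOrd hπ hO hx), 0, by rwa [pow_zero, one_smul]⟩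
  have hint : ∀ x ∈ Λ3, π ^ n • x ∈ Λ := by
    intro x hx
    obtain ⟨hx2, k, hk⟩ := (hmem3 x).1 hx
    obtain ⟨s, hs, hsx⟩ := mem_locOrd.1 (hn x hx2)
    have hcop : IsCoprime s (π ^ k) := by
      have h1 : IsCoprime π s := (hπ.irreducible.coprime_iff_not_dvd).2 hs
      exact (h1.pow_left).symm
    obtain ⟨u, v, huv⟩ := hcop
    have e : π ^ n • x = u • s • π ^ n • x + v • π ^ n • π ^ k • x := by
      rw [smul_smul, smul_smul, smul_smul, smul_smul, ← add_smul]
      congr 1
      calc π ^ n = (u * s + v * π ^ k) * π ^ n := by rw [huv, one_mul]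
        _ = _ := by ring
    rw [e]
    exact Λ.add_mem (Λ.smul_mem hsx u) (Λ.smul_mem (Λ.smul_mem hk _) v)
  have hord3 : IsOrd R Λ3 := by
    refine ⟨?_, fun x => ?_⟩
    · have hfin : Module.Finite R (Subalgebra.toSubmodule Λ) := Module.Finite.iff_fg.mpr hΛ.1.fg
      have hnoeth : IsNoetherian R (Subalgebra.toSubmodule Λ) :=
        isNoetherian_of_isNoetherianRing_of_finite R _
      let g : Subalgebra.toSubmodule Λ3 →ₗ[R] Subalgebra.toSubmodule Λ :=
        { toFun := fun x => ⟨π ^ n • (x : C), hint x x.2⟩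
          map_add' := fun x y => by
            apply Subtype.ext
            simp
          map_smul' := fun c x => by
            apply Subtype.ext
            simp only [Submodule.coe_smul_of_tower, RingHom.id_apply]
            rw [smul_comm] }
      have hg : Function.Injective g := by
        intro x y hxy
        apply Subtype.ext
        have h1 : π ^ n • (x : C) = π ^ n • (y : C) :=
          congrArg (fun t : Subalgebra.toSubmodule Λ => (t : C)) hxy
        rw [← algebraMap_smul F (π ^ n) (x : C), ← algebraMap_smul F (π ^ n) (y : C)] at h1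
        have h2 : algebraMap R F (π ^ n) ≠ 0 := by
          rw [Ne, IsFractionRing.to_map_eq_zero_iff]
          exact pow_ne_zero n hπ.ne_zero
        have h3 := congrArg (fun t : C => (algebraMap R F (π ^ n))⁻¹ • t) h1
        simpa only [smul_smul, inv_mul_cancel₀ h2, one_smul] using h3
      have : Module.Finite R (Subalgebra.toSubmodule Λ3) := Module.Finite.of_injective g hg
      exact Module.Finite.iff_fg.mp inferInstance
    · obtain ⟨r, hr, hx⟩ := hΛ.1.den x
      exact ⟨r, hr, hle3 hx⟩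
  have hmax : Λ3 ≤ Λ := hΛ.2 Λ3 hord3 hle3
  -- Step 3
  intro x hx
  obtain ⟨a, g, hg, hag⟩ := hden x
  refine mem_locOrd.2 ⟨g, hg, hmax ?_⟩
  refine (hmem3 _).2 ⟨hR2 g x hx, a, ?_⟩
  rwa [smul_smul]

end BB37
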