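import Pool.Agent.Lib.MP_bb37eb_nt.P.Mat
import Pool.Agent.Lib.MP_bb37eb_nt.P.Loc
import Pool.Agent.Lib.MP_bb37eb_nt.P.Count

/-! The algebra of global sections. -/

namespace BB37

open Module TensorProduct Polynomial

section

variable {K F D : Type} [Field K] [Field F] [Algebra K F] {x : F}

/-- A polynomial in `x` which is a unit at all primes is a constant. -/
theorem const_of_unit (hx : IsGen K x) (g : F) (hg0 : g ≠ 0) (hg : g ∈ polyRing K x)
    (h : ∀ p : K[X], Prime p → ∀ (P : Ideal K[X]) [P.IsPrime], P = Ideal.span {p} →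
      g⁻¹ ∈ locRing K x P) : ∃ a : K, a ≠ 0 ∧ g = algebraMap K F a := by
  obtain ⟨f, hf⟩ := hg
  have hf' : aeval x f = g := hf
  have hf0 : f ≠ 0 := by
    rintro rfl
    rw [map_zero] at hf'
    exact hg0 hf'.symm
  have hu : IsUnit f := by
    by_contra hne
    obtain ⟨p, hp, hdvd⟩ := WfDvdMonoid.exists_irreducible_factor hne hf0
    have hpp : Prime p := hp.prime
    have hP : (Ideal.span {p}).IsPrime := (Ideal.span_singleton_prime hpp.ne_zero).2 hpp
    obtain ⟨a, q, hq, e⟩ := h p hpp (Ideal.span {p}) rfl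
    apply hq
    rw [Ideal.mem_span_singleton]
    have h1 : aeval x q = aeval x (f * a) := by
      rw [map_mul, hf', ← e, mul_inv_cancel_left₀ hg0]
    rw [hx.inj h1]
    exact hdvd.mul_right a
  obtain ⟨a, ha, rfl⟩ := Polynomial.isUnit_iff.1 hu
  exact ⟨a, ha.ne_zero, by rw [← hf', aeval_C]⟩

variable [Ring D] [Algebra F D] [Algebra K D] [IsScalarTower K F D]

/-- The algebra of global sections. -/
noncomputable def glob (Λ : Subalgebra (polyRing K x) D) (Λ' : Subalgebra (inftyRing K x) D) :
    Subalgebra K D :=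
  Λ.restrictScalars K ⊓ Λ'.restrictScalars K

theorem mem_glob {Λ : Subalgebra (polyRing K x) D} {Λ' : Subalgebra (inftyRing K x) D} {z : D} :
    z ∈ glob Λ Λ' ↔ z ∈ Λ ∧ z ∈ Λ' := Iff.rfl

theorem glob_dim (hx : IsGen K x) {m : ℕ} {Λ : Subalgebra (polyRing K x) D}
    {Λ' : Subalgebra (inftyRing K x) D} {b c : Basis (Fin m) F D}
    (hb : IsBasisOf (polyRing K x) b Λ) (hc : IsBasisOf (inftyRing K x) c Λ')
    (hT : ∃ u : (inftyRing K x)ˣ, (c.toMatrix b).det = ((u : inftyRing K x) : F)) :
    FiniteDimensional K (glob Λ Λ') ∧ m ≤ finrank K (glob Λ Λ') := by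
  have key : ∀ v : Fin m → K[X], (∑ j, aeval x (v j) • b j ∈ glob Λ Λ') ↔
      v ∈ sections K x (c.toMatrix b) := by
    intro v
    have hrep : b.repr (∑ j, aeval x (v j) • b j) = fun j => aeval x (v j) := by
      funext i
      rw [Basis.repr_sum_self]
    rw [mem_glob]
    constructor
    · rintro ⟨-, h2⟩ i
      obtain ⟨r, hr⟩ := (hc _).1 h2 i
      have h3 := congrFun (b.toMatrix_mulVec_repr c (∑ j, aeval x (v j) • b j)) i
      rw [hrep] at h3
      rw [h3, hr]
      exact r.2
    · intro h
      constructor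
      · rw [hb]
        intro i
        exact ⟨⟨aeval x (v i), v i, rfl⟩, congrFun hrep i⟩
      · rw [hc]
        intro i
        have h3 := congrFun (b.toMatrix_mulVec_repr c (∑ j, aeval x (v j) • b j)) i
        rw [hrep] at h3
        exact ⟨⟨_, h i⟩, h3.symm⟩
  let f : sections K x (c.toMatrix b) →ₗ[K] glob Λ Λ' :=
    { toFun := fun v => ⟨∑ j, aeval x ((v : Fin m → K[X]) j) • b j, (key _).2 v.2⟩
      map_add' := fun u v => by
        apply Subtype.ext
        show ∑ j, aeval x ((u : Fin m → K[X]) j + (v : Fin m → K[X]) j) • b j =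
          ∑ j, aeval x ((u : Fin m → K[X]) j) • b j + ∑ j, aeval x ((v : Fin m → K[X]) j) • b j
        rw [← Finset.sum_add_distrib]
        exact Finset.sum_congr rfl fun j _ => by rw [map_add, add_smul]
      map_smul' := fun t v => by
        apply Subtype.ext
        show ∑ j, aeval x (t • (v : Fin m → K[X]) j) • b j =
          t • ∑ j, aeval x ((v : Fin m → K[X]) j) • b j
        rw [Finset.smul_sum]
        exact Finset.sum_congr rfl fun j _ => by rw [map_smul, smul_assoc] }
  have hinj : Function.Injective f := by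
    intro u v huv
    apply Subtype.ext
    funext j
    have h1 : b.repr (∑ j, aeval x ((u : Fin m → K[X]) j) • b j) j =
        b.repr (∑ j, aeval x ((v : Fin m → K[X]) j) • b j) j :=
      congrArg (fun t : glob Λ Λ' => b.repr (t : D) j) huv
    rw [Basis.repr_sum_self, Basis.repr_sum_self] at h1
    exact hx.inj h1
  have hsurj : Function.Surjective f := by
    rintro ⟨z, hz⟩
    have h1 := (hb z).1 (mem_glob.1 hz).1
    choose r hr using h1
    have h2 : ∀ j, ∃ p : K[X], aeval x p = b.repr z j := fun j => by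
      obtain ⟨p, hp⟩ := (r j).2
      exact ⟨p, by rw [hr j]; exact hp⟩
    choose v hv using h2
    have h3 : ∑ j, aeval x (v j) • b j = z := by
      conv_rhs => rw [← b.sum_repr z]
      exact Finset.sum_congr rfl fun j _ => by rw [hv j]
    have h4 : v ∈ sections K x (c.toMatrix b) := by
      rw [← key, h3]
      exact hz
    exact ⟨⟨v, h4⟩, Subtype.ext h3⟩
  let e : sections K x (c.toMatrix b) ≃ₗ[K] glob Λ Λ' := LinearEquiv.ofBijective f ⟨hinj, hsurj⟩
  have hdet : (c.toMatrix b).det ≠ 0 := by
    obtain ⟨u, hu⟩ := hT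
    rw [hu]
    intro h
    exact u.ne_zero (Subtype.ext h)
  have h5 := sections_finite hx (c.toMatrix b) hdet
  exact ⟨e.finiteDimensional, by rw [← e.finrank_eq]; exact sections_ge hx _ hT⟩

end

end BB37
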