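import Mathlib

/-! Orders over a principal ideal ring: definitions. -/

namespace BB37

open Module

section Ord

variable (R : Type) [CommRing R] {C : Type} [Ring C] [Algebra R C]

/-- An order: a subalgebra, finitely generated as a module, containing a nonzero multiple of every
element. -/
structure IsOrd (Λ : Subalgebra R C) : Prop where
  fg : (Subalgebra.toSubmodule Λ).FG
  den : ∀ x : C, ∃ r : R, r ≠ 0 ∧ r • x ∈ Λ

/-- A maximal order. -/
def IsMaxOrd (Λ : Subalgebra R C) : Prop :=
  IsOrd R Λ ∧ ∀ Λ' : Subalgebra R C, IsOrd R Λ' → Λ ≤ Λ' → Λ' ≤ Λ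

end Ord

/-- The trace of the regular representation. -/
noncomputable def rtr (R : Type) [CommRing R] {C : Type} [Ring C] [Algebra R C] (x : C) : R :=
  LinearMap.trace R C (LinearMap.mulLeft R x)

/-- The Gram matrix of the regular trace form. -/
noncomputable def gram (R : Type) [CommRing R] {C : Type} [Ring C] [Algebra R C] {m : ℕ}
    (b : Fin m → C) : Matrix (Fin m) (Fin m) R :=
  Matrix.of fun i j => rtr R (b i * b j)

/-- `O` is the localization of `R` at the prime element `π`, both inside the field `F`. -/
structure IsLocOf (R O F : Type) [CommRing R] [CommRing O] [Field F] [Algebra R F] [Algebra O F]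
    (π : R) : Prop where
  sub : ∀ r : R, ∃ o : O, algebraMap O F o = algebraMap R F r
  inv : ∀ s : R, ¬ π ∣ s → ∃ o : O, algebraMap R F s * algebraMap O F o = 1
  frac : ∀ o : O, ∃ a s : R, ¬ π ∣ s ∧ algebraMap O F o * algebraMap R F s = algebraMap R F a

/-- `x` generates the field `F` over `K` and is transcendental. -/
structure IsGen (K : Type) [Field K] {F : Type} [Field F] [Algebra K F] (x : F) : Prop where
  inj : Function.Injective (Polynomial.aeval x : Polynomial K →ₐ[K] F)
  surj : ∀ z : F, ∃ p q : Polynomial K, Polynomial.aeval x q ≠ 0 ∧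
    z = Polynomial.aeval x p / Polynomial.aeval x q

/-- The polynomials in `x`. -/
noncomputable def polyRing (K : Type) [Field K] {F : Type} [Field F] [Algebra K F] (x : F) :
    Subalgebra K F :=
  (Polynomial.aeval x : Polynomial K →ₐ[K] F).range

/-- The local ring at a prime of the polynomials in `x`. -/
def locRing (K : Type) [Field K] {F : Type} [Field F] [Algebra K F] (x : F)
    (P : Ideal (Polynomial K)) [hP : P.IsPrime] : Subalgebra K F where
  carrier := {z | ∃ p q : Polynomial K, q ∉ P ∧ z * Polynomial.aeval x q = Polynomial.aeval x p}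
  mul_mem' := by
    rintro z w ⟨p, q, hq, h⟩ ⟨p', q', hq', h'⟩
    refine ⟨p * p', q * q', hP.mul_notMem hq hq', ?_⟩
    rw [map_mul, map_mul, mul_mul_mul_comm, h, h']
  add_mem' := by
    rintro z w ⟨p, q, hq, h⟩ ⟨p', q', hq', h'⟩
    refine ⟨p * q' + q * p', q * q', hP.mul_notMem hq hq', ?_⟩
    rw [map_mul, map_add, map_mul, map_mul, ← h, ← h']
    ring
  algebraMap_mem' := by
    intro c
    refine ⟨Polynomial.C c, 1, (Ideal.ne_top_iff_one _).1 hP.ne_top, ?_⟩
    rw [map_one, mul_one, Polynomial.aeval_C]

theorem mem_locRing {K : Type} [Field K] {F : Type} [Field F] [Algebra K F] {x : F}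
    {P : Ideal (Polynomial K)} [hP : P.IsPrime] {z : F} :
    z ∈ locRing K x P ↔ ∃ p q : Polynomial K, q ∉ P ∧
      z * Polynomial.aeval x q = Polynomial.aeval x p := Iff.rfl

/-- The prime of the polynomials vanishing at `a`. -/
noncomputable abbrev primeAt {K : Type} [Field K] (a : K) : Ideal (Polynomial K) :=
  Ideal.span {Polynomial.X - Polynomial.C a}

instance {K : Type} [Field K] (a : K) : (primeAt a).IsPrime :=
  (Ideal.span_singleton_prime (Polynomial.X_sub_C_ne_zero a)).2 (Polynomial.prime_X_sub_C a)

end BB37
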