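import Pool.Agent.Lib.MP_bb37eb_nt.P.Order

/-! The regular trace form of a simple algebra in characteristic zero. -/

namespace BB37

open Module TensorProduct

theorem rtr_mul_comm (k B : Type) [Field k] [Ring B] [Algebra k B] (x y : B) :
    rtr k (x * y) = rtr k (y * x) := by
  unfold rtr
  have h : ∀ u v : B, LinearMap.mulLeft k (u * v) = LinearMap.mulLeft k u * LinearMap.mulLeft k v := by
    intro u v
    ext z
    simp [mul_assoc]
  rw [h, h, LinearMap.trace_mul_comm]

theorem rtr_zero' (k B : Type) [Field k] [Ring B] [Algebra k B] : rtr k (0 : B) = 0 := by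
  have h := rtr_smul (0 : k) (0 : B)
  rwa [smul_zero, zero_mul] at h

/-- The regular trace form of a finite dimensional simple algebra in characteristic zero is
nondegenerate. Proof. Otherwise (`Matrix.exists_mulVec_eq_zero_iff`) there is a nonzero
`x = ∑ v j • c j` with `rtr k (y * x) = 0` for all `y`. The set
`I = {x | ∀ y, rtr k (y * x) = 0}` is a two-sided ideal (`rtr k (x y) = rtr k (y x)`:
`LinearMap.trace_mul_comm` and `LinearMap.mulLeft_mul`), so it is zero or everything, as `B` is a
simple ring (`TwoSidedIdeal.mk'`, `eq_bot_or_eq_top`); but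
`rtr k (1 * 1) = finrank k B ≠ 0` (`rtr_one_ne`). -/
theorem gram_det_ne_zero (k B : Type) [Field k] [CharZero k] [Ring B] [Algebra k B]
    [FiniteDimensional k B] [IsSimpleRing B] {m : ℕ} (c : Basis (Fin m) k B) :
    (gram k c).det ≠ 0 := by
  classical
  intro hdet
  obtain ⟨v, hv0, hv⟩ := Matrix.exists_mulVec_eq_zero_iff.2 hdet
  -- the radical of the trace form
  let I : TwoSidedIdeal B := TwoSidedIdeal.mk' {x | ∀ y, rtr k (y * x) = 0}
    (fun y => by rw [mul_zero, rtr_zero'])
    (fun {a b} ha hb y => by
      rw [mul_add, rtr_add, ha y, hb y, add_zero])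
    (fun {a} ha y => by
      have h1 := rtr_smul (-1 : k) (y * a)
      rw [neg_one_smul, ha y, mul_zero] at h1
      rw [mul_neg]
      exact h1)
    (fun {a b} hb y => by
      rw [← mul_assoc]
      exact hb _)
    (fun {a b} ha y => by
      rw [← mul_assoc, rtr_mul_comm, ← mul_assoc]
      exact ha _)
  have hmem : ∀ x, x ∈ I ↔ ∀ y, rtr k (y * x) = 0 := fun x => TwoSidedIdeal.mem_mk' _ _ _ _ _ _ _
  have hx : (∑ j, v j • c j) ∈ I := by
    rw [hmem]
    intro y
    let T : B →ₗ[k] k :=
      { toFun := fun y => rtr k (y * ∑ j, v j • c j)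
        map_add' := fun u w => by rw [add_mul, rtr_add]
        map_smul' := fun a u => by rw [smul_mul_assoc, rtr_smul]; rfl }
    have hT : T = 0 := by
      apply c.ext
      intro i
      have h1 := congrFun hv i
      simp only [Matrix.mulVec, dotProduct, gram, Matrix.of_apply, Pi.zero_apply] at h1
      change rtr k (c i * ∑ j, v j • c j) = 0
      have h2 : ∀ (s : Finset (Fin m)), rtr k (c i * ∑ j ∈ s, v j • c j) =
          ∑ j ∈ s, rtr k (c i * c j) * v j := by
        intro s
        induction s using Finset.induction_on with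
        | empty => rw [Finset.sum_empty, mul_zero, rtr_zero', Finset.sum_empty]
        | insert j s hj ih =>
          rw [Finset.sum_insert hj, mul_add, rtr_add, ih, Finset.sum_insert hj, mul_smul_comm,
            rtr_smul, mul_comm (v j)]
      rw [h2]
      exact h1
    exact LinearMap.congr_fun hT y
  have hx0 : (∑ j, v j • c j) ≠ 0 := by
    intro h
    apply hv0
    funext j
    have h1 := congrArg (fun t => c.repr t j) h
    simp only [Basis.repr_sum_self, map_zero, Finsupp.zero_apply] at h1
    exact h1
  rcases eq_bot_or_eq_top I with h | h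
  · rw [h] at hx
    exact hx0 ((TwoSidedIdeal.mem_bot B).1 hx)
  · have h1 : (1 : B) ∈ I := by
      rw [h]
      trivial
    have h2 := (hmem 1).1 h1 1
    rw [mul_one] at h2
    exact rtr_one_ne h2

/-- The Gram determinant of an algebra over a local ring with simple fibre is a unit. Proof. The
elements `1 ⊗ b i` are a basis of the fibre (`Algebra.TensorProduct.basis k b` or
`Basis.baseChange`), `rtr k (1 ⊗ x) = algebraMap O k (rtr O x)`
(`LinearMap.trace_baseChange`, and `LinearMap.mulLeft k (1 ⊗ x) = (LinearMap.mulLeft O x).baseChange k`),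
so the image of the Gram determinant in `k` is the Gram determinant of the fibre
(`RingHom.map_det`), nonzero by `gram_det_ne_zero`. A non-unit of `O` would be in the maximal ideal,
which is the kernel of `O → k` (`k` is a field and `O` is local:
`IsLocalRing.le_maximalIdeal`; the kernel is maximal as `O → k` is surjective). -/
theorem gram_isUnit (O k Λ : Type) [CommRing O] [IsLocalRing O] [Field k] [CharZero k]
    [Algebra O k] (hk : Function.Surjective (algebraMap O k)) [Ring Λ] [Algebra O Λ] {m : ℕ}
    (b : Basis (Fin m) O Λ) [IsSimpleRing (k ⊗[O] Λ)] : IsUnit (gram O b).det := by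
  classical
  have : Module.Free O Λ := Module.Free.of_basis b
  have : Module.Finite O Λ := Module.Finite.of_basis b
  have : FiniteDimensional k (k ⊗[O] Λ) :=
    Module.Finite.of_basis (Algebra.TensorProduct.basis k b)
  have hrtr : ∀ x : Λ, rtr k ((1 : k) ⊗ₜ[O] x) = algebraMap O k (rtr O x) := by
    intro x
    unfold rtr
    rw [← LinearMap.trace_baseChange]
    congr 1
    refine TensorProduct.AlgebraTensorModule.ext fun a y => ?_
    rw [LinearMap.mulLeft_apply, Algebra.TensorProduct.tmul_mul_tmul, one_mul,
      LinearMap.baseChange_tmul, LinearMap.mulLeft_apply]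
  have hmat : (algebraMap O k).mapMatrix (gram O b) =
      gram k (Algebra.TensorProduct.basis k b) := by
    ext i j
    rw [RingHom.mapMatrix_apply, Matrix.map_apply]
    unfold gram
    rw [Matrix.of_apply, Matrix.of_apply, ← hrtr, Algebra.TensorProduct.basis_apply,
      Algebra.TensorProduct.basis_apply, Algebra.TensorProduct.tmul_mul_tmul, one_mul]
  have hne : algebraMap O k (gram O b).det ≠ 0 := by
    rw [RingHom.map_det, hmat]
    exact gram_det_ne_zero k (k ⊗[O] Λ) (Algebra.TensorProduct.basis k b)
  by_contra hu
  have h1 : (gram O b).det ∈ IsLocalRing.maximalIdeal O :=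
    (IsLocalRing.mem_maximalIdeal _).2 hu
  rw [← IsLocalRing.eq_maximalIdeal (RingHom.ker_isMaximal_of_surjective (algebraMap O k) hk)] at h1
  exact hne ((RingHom.mem_ker).1 h1)

/-- Change of basis for the Gram matrix, over a field.
Proof. `gram F b = Tᵀ * gram F c * T` with `T = c.toMatrix b`, take determinants. -/
theorem gram_change (F C : Type) [Field F] [Ring C] [Algebra F C] [FiniteDimensional F C] {m : ℕ}
    (b c : Basis (Fin m) F C) :
    (gram F b).det = (c.toMatrix b).det ^ 2 * (gram F c).det := by
  classical
  have h : gram F b = (c.toMatrix b).transpose * gram F c * c.toMatrix b := by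
    let T : C →ₗ[F] F :=
      { toFun := fun x => rtr F x
        map_add' := fun x y => rtr_add x y
        map_smul' := fun q x => rtr_smul q x }
    have hT : ∀ x, rtr F x = T x := fun _ => rfl
    ext i j
    rw [Matrix.mul_apply]
    unfold gram
    simp only [Matrix.mul_apply, Matrix.transpose_apply, Matrix.of_apply]
    conv_lhs => rw [← c.sum_toMatrix_smul_self b i, ← c.sum_toMatrix_smul_self b j]
    rw [Finset.mul_sum, hT, map_sum]
    refine Finset.sum_congr rfl fun l _ => ?_
    rw [Finset.sum_mul, map_sum, Finset.sum_mul]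
    refine Finset.sum_congr rfl fun n _ => ?_
    rw [smul_mul_assoc, mul_smul_comm, map_smul, map_smul, smul_eq_mul, smul_eq_mul, hT]
    ring
  rw [h, Matrix.det_mul, Matrix.det_mul, Matrix.det_transpose]
  ring

end BB37
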