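import Pool.Agent.Lib.MP_bb37eb_nt.P.Place

/-! The place at infinity of `K(x)`. -/

namespace BB37

open Polynomial

variable {K F : Type} [Field K] [Field F] [Algebra K F] {x : F}

/-- The local ring at infinity. -/
noncomputable abbrev inftyRing (K : Type) [Field K] {F : Type} [Field F] [Algebra K F] (x : F) :
    Subalgebra K F := locRing K x⁻¹ (primeAt 0)

theorem notMem_primeAt_zero {q : K[X]} : q ∉ (primeAt 0 : Ideal K[X]) ↔ q.eval 0 ≠ 0 := by
  change q ∉ Ideal.span {X - C (0 : K)} ↔ _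
  rw [Ideal.mem_span_singleton, Polynomial.dvd_iff_isRoot]
  rfl

/-- The uniformizer `x⁻¹` at infinity. -/
theorem inv_mem_infty : x⁻¹ ∈ inftyRing K x := by
  have h := aeval_mem_locRing (x := x⁻¹) (primeAt (0 : K)) X
  rwa [aeval_X] at h

/-- Every element of the local ring at infinity is a constant plus a multiple of `x⁻¹`: if
`z q(x⁻¹) = p(x⁻¹)` with `q(0) ≠ 0` take `c = p(0) / q(0)`. -/
theorem infty_const (hx : IsGen K x) (z : inftyRing K x) :
    ∃ (c : K) (w : inftyRing K x), z = algebraMap K _ c + ⟨x⁻¹, inv_mem_infty⟩ * w := by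
  obtain ⟨z, p, q, hq, h⟩ := z
  have hq0 : q.eval 0 ≠ 0 := notMem_primeAt_zero.1 hq
  have hqx : aeval x⁻¹ q ≠ 0 := hx.inv.aeval_ne_zero (ne_zero_of_notMem_ideal hq)
  set c : K := p.eval 0 / q.eval 0 with hc
  have hroot : (p - C c * q).eval 0 = 0 := by
    rw [eval_sub, eval_mul, eval_C, hc, div_mul_cancel₀ _ hq0, sub_self]
  obtain ⟨r, hr⟩ : X ∣ p - C c * q := by
    rw [X_dvd_iff, coeff_zero_eq_eval_zero]
    exact hroot
  have hr' : aeval x⁻¹ p - algebraMap K F c * aeval x⁻¹ q = x⁻¹ * aeval x⁻¹ r := by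
    have := congrArg (aeval x⁻¹ : K[X] →ₐ[K] F) hr
    rwa [map_sub, map_mul, aeval_C, map_mul, aeval_X] at this
  refine ⟨c, ⟨aeval x⁻¹ r * (aeval x⁻¹ q)⁻¹, r, q, hq, ?_⟩, ?_⟩
  · rw [mul_assoc, inv_mul_cancel₀ hqx, mul_one]
  · apply Subtype.ext
    change z = algebraMap K F c + x⁻¹ * (aeval x⁻¹ r * (aeval x⁻¹ q)⁻¹)
    rw [← mul_assoc, ← hr', sub_mul, mul_assoc (algebraMap K F c), mul_inv_cancel₀ hqx, mul_one,
      ← h, mul_assoc, mul_inv_cancel₀ hqx, mul_one]
    ring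

/-- Every element of the field is a quotient of an element of the local ring by a power of `x⁻¹`. -/
theorem infty_pow (hx : IsGen K x) (z : F) : ∃ n : ℕ, z * x⁻¹ ^ n ∈ inftyRing K x := by
  obtain ⟨p, q, hq, rfl⟩ := hx.inv.surj z
  have hq0 : q ≠ 0 := by
    rintro rfl
    exact hq (map_zero _)
  obtain ⟨r, hr, hr'⟩ := Polynomial.exists_eq_pow_rootMultiplicity_mul_and_not_dvd q hq0 0
  refine ⟨q.rootMultiplicity 0, p, r, ?_, ?_⟩
  · change r ∉ Ideal.span {X - C (0 : K)}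
    rw [Ideal.mem_span_singleton]
    exact hr'
  · have hqx : aeval x⁻¹ q = x⁻¹ ^ q.rootMultiplicity 0 * aeval x⁻¹ r := by
      conv_lhs => rw [hr]
      rw [map_mul, map_pow, map_sub, aeval_X, aeval_C, map_zero, sub_zero]
    rw [mul_assoc, ← hqx, div_mul_cancel₀ _ hq]

theorem aeval_eq_reverse (hx : IsGen K x) (f : K[X]) :
    aeval x⁻¹ f.reverse * x ^ f.natDegree = aeval x f := by
  let _ : Invertible x := invertibleOfNonzero hx.ne_zero
  have h := eval₂_reverse_mul_pow (algebraMap K F) x f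
  rw [invOf_eq_inv] at h
  exact h

/-- Degree and order at infinity. Proof: `aeval x f * x⁻¹ ^ n = aeval x⁻¹ (reflect n f)` for
`natDegree f ≤ n`. If `d = natDegree f > n` and `f ≠ 0`:
`x⁻¹ ^ (d - n) * (aeval x f * x⁻¹ ^ n) = aeval x⁻¹ (reverse f)`, whose constant coefficient is the
leading coefficient of `f`; if `aeval x f * x⁻¹ ^ n` were in the local ring,
`= p(x⁻¹)/q(x⁻¹)`, then `X ^ (d-n) * p = q * reverse f` by injectivity, and evaluating at `0` gives
`0 = q(0) * leadingCoeff f ≠ 0`. -/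
theorem infty_poly (hx : IsGen K x) (f : K[X]) (n : ℕ) :
    aeval x f * x⁻¹ ^ n ∈ inftyRing K x ↔ f.natDegree ≤ n := by
  have hx0 : x ≠ 0 := hx.ne_zero
  constructor
  · rintro ⟨p, q, hq, h⟩
    by_contra hlt
    rw [not_le] at hlt
    have hf0 : f ≠ 0 := by
      rintro rfl
      rw [natDegree_zero] at hlt
      exact absurd hlt (Nat.not_lt_zero _)
    obtain ⟨e, he⟩ := Nat.exists_eq_add_of_lt hlt
    have h1 : aeval x f * x⁻¹ ^ n * x⁻¹ ^ (e + 1) = aeval x⁻¹ f.reverse := by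
      rw [← aeval_eq_reverse hx f, mul_assoc, ← pow_add, ← add_assoc, ← he, mul_assoc, ← mul_pow,
        mul_inv_cancel₀ hx0, one_pow, mul_one]
    have h2 : aeval x⁻¹ (p * X ^ (e + 1)) = aeval x⁻¹ (q * f.reverse) := by
      rw [map_mul, map_mul, map_pow, aeval_X, ← h1, ← h]
      ring
    have h3 := hx.inv.inj h2
    have h4 := congrArg (fun g : K[X] => g.eval 0) h3
    simp only [eval_mul, eval_pow, eval_X, pow_succ, mul_zero] at h4
    have h5 : f.reverse.eval 0 ≠ 0 := by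
      rw [← coeff_zero_eq_eval_zero, coeff_zero_reverse]
      exact leadingCoeff_ne_zero.2 hf0
    exact mul_ne_zero (notMem_primeAt_zero.1 hq) h5 h4.symm
  · intro hle
    obtain ⟨e, rfl⟩ := Nat.exists_eq_add_of_le hle
    have h1 : aeval x f * x⁻¹ ^ (f.natDegree + e) = aeval x⁻¹ (f.reverse * X ^ e) := by
      rw [map_mul, map_pow, aeval_X]
      conv_lhs => rw [← aeval_eq_reverse hx f]
      rw [pow_add, mul_assoc, ← mul_assoc (x ^ f.natDegree), ← mul_pow, mul_inv_cancel₀ hx0,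
        one_pow, one_mul]
    rw [h1]
    exact aeval_mem_locRing _ _

end BB37
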