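import Pool.Agent.Lib.MP_bb37eb_nt.P.Defs

/-! The places of the field `K(x)`. -/

namespace BB37

open Polynomial

variable {K F : Type} [Field K] [Field F] [Algebra K F] {x : F}

/-- `K[x]` is a principal ideal domain: `IsPrincipalIdealRing.of_surjective` for the surjection
`(aeval x).rangeRestrict` from `K[X]`. -/
theorem polyRing_pid (K : Type) [Field K] {F : Type} [Field F] [Algebra K F] (x : F) :
    IsPrincipalIdealRing (polyRing K x) :=
  IsPrincipalIdealRing.of_surjective
    ((Polynomial.aeval x : Polynomial K →ₐ[K] F).rangeRestrict : Polynomial K →ₐ[K] polyRing K x)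
    (AlgHom.rangeRestrict_surjective _)

/-- (`IsFractionRing.of_field`.) -/
theorem polyRing_frac (hx : IsGen K x) : IsFractionRing (polyRing K x) F := by
  refine IsFractionRing.of_field _ _ fun z => ?_
  obtain ⟨p, q, hq, rfl⟩ := hx.surj z
  exact ⟨⟨aeval x p, p, rfl⟩, ⟨aeval x q, q, rfl⟩, rfl⟩

/-- A local ring of `K[x]` contains `K[x]`. -/
theorem aeval_mem_locRing (P : Ideal K[X]) [P.IsPrime] (f : K[X]) : aeval x f ∈ locRing K x P :=
  ⟨f, 1, (Ideal.ne_top_iff_one _).1 (Ideal.IsPrime.ne_top inferInstance), by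
    rw [map_one, mul_one]⟩

theorem IsGen.aeval_ne_zero (hx : IsGen K x) {q : K[X]} (hq : q ≠ 0) : aeval x q ≠ 0 := by
  intro h
  exact hq (hx.inj (by rw [h, map_zero]))

theorem ne_zero_of_notMem_ideal {P : Ideal K[X]} {q : K[X]} (hq : q ∉ P) : q ≠ 0 := by
  rintro rfl
  exact hq P.zero_mem

/-- The local ring is a localization of `K[X]`. For the algebra structure given by
`f ↦ ⟨aeval x f, _⟩`. Proof: `IsLocalization.mk`-type statement from the definition and `hx.inj`. -/
theorem locRing_isLocalization (hx : IsGen K x) (P : Ideal K[X]) [P.IsPrime] :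
    letI : Algebra K[X] (locRing K x P) := ((aeval x : K[X] →ₐ[K] F).codRestrict _
      (aeval_mem_locRing (x := x) P)).toRingHom.toAlgebra
    IsLocalization.AtPrime (locRing K x P) P := by
  let _ : Algebra K[X] (locRing K x P) := ((aeval x : K[X] →ₐ[K] F).codRestrict _
      (aeval_mem_locRing (x := x) P)).toRingHom.toAlgebra
  have hmap : ∀ f : K[X], ((algebraMap K[X] (locRing K x P) f : locRing K x P) : F) =
      aeval x f := fun f => rfl
  refine (isLocalization_iff _ _).2 ⟨?_, ?_, ?_⟩
  · rintro ⟨q, hq⟩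
    have hq0 : aeval x q ≠ 0 := hx.aeval_ne_zero (ne_zero_of_notMem_ideal hq)
    refine IsUnit.of_mul_eq_one ⟨(aeval x q)⁻¹, 1, q, hq, ?_⟩ ?_
    · rw [inv_mul_cancel₀ hq0, map_one]
    · apply Subtype.ext
      exact mul_inv_cancel₀ hq0
  · rintro ⟨z, p, q, hq, h⟩
    exact ⟨(p, ⟨q, hq⟩), Subtype.ext h⟩
  · intro f g h
    refine ⟨1, ?_⟩
    have h2 : aeval x f = aeval x g := congrArg Subtype.val h
    rw [hx.inj h2]

/-- From `locRing_isLocalization`: `IsLocalization.AtPrime.isLocalRing`. -/
theorem locRing_local (hx : IsGen K x) (P : Ideal K[X]) [P.IsPrime] :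
    IsLocalRing (locRing K x P) := by
  let _ : Algebra K[X] (locRing K x P) := ((aeval x : K[X] →ₐ[K] F).codRestrict _
      (aeval_mem_locRing (x := x) P)).toRingHom.toAlgebra
  have : IsLocalization.AtPrime (locRing K x P) P := locRing_isLocalization hx P
  exact IsLocalization.AtPrime.isLocalRing (locRing K x P) P

/-- From `locRing_isLocalization`: a localization of a principal ideal ring is one
(`IsLocalization.isPrincipalIdealRing` or: every ideal is the extension of its contraction,
`IsLocalization.map_comap`). -/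
theorem locRing_pid (hx : IsGen K x) (P : Ideal K[X]) [P.IsPrime] :
    IsPrincipalIdealRing (locRing K x P) := by
  let _ : Algebra K[X] (locRing K x P) := ((aeval x : K[X] →ₐ[K] F).codRestrict _
      (aeval_mem_locRing (x := x) P)).toRingHom.toAlgebra
  have : IsLocalization.AtPrime (locRing K x P) P := locRing_isLocalization hx P
  refine ⟨fun J => ?_⟩
  obtain ⟨g, hg⟩ := (IsPrincipalIdealRing.principal
    (J.comap (algebraMap K[X] (locRing K x P)))).principal
  refine ⟨algebraMap K[X] (locRing K x P) g, ?_⟩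
  apply le_antisymm
  · rintro ⟨z, p, q, hq, h⟩ hz
    have hp : p ∈ J.comap (algebraMap K[X] (locRing K x P)) := by
      rw [Ideal.mem_comap]
      have : algebraMap K[X] (locRing K x P) p =
          algebraMap K[X] (locRing K x P) q * ⟨z, p, q, hq, h⟩ := by
        apply Subtype.ext
        change aeval x p = aeval x q * z
        rw [mul_comm]
        exact h.symm
      rw [this]
      exact J.mul_mem_left _ hz
    rw [hg] at hp
    obtain ⟨c, hc⟩ := Submodule.mem_span_singleton.1 hp
    have hq0 : aeval x q ≠ 0 := hx.aeval_ne_zero (ne_zero_of_notMem_ideal hq)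
    refine Submodule.mem_span_singleton.2 ⟨⟨aeval x c * (aeval x q)⁻¹, c, q, hq, ?_⟩, ?_⟩
    · rw [mul_assoc, inv_mul_cancel₀ hq0, mul_one]
    · apply Subtype.ext
      change aeval x c * (aeval x q)⁻¹ * aeval x g = z
      have h3 : aeval x c * aeval x g = aeval x p := by
        rw [← map_mul, ← hc, smul_eq_mul]
      field_simp
      rw [h3, mul_comm]
      exact h.symm
  · rw [Submodule.span_singleton_le_iff_mem]
    have : g ∈ J.comap (algebraMap K[X] (locRing K x P)) := by
      rw [hg]
      exact Submodule.mem_span_singleton_self g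
    exact this

theorem locRing_frac (hx : IsGen K x) (P : Ideal K[X]) [P.IsPrime] :
    IsFractionRing (locRing K x P) F := by
  refine IsFractionRing.of_field _ _ ?_
  intro z
  obtain ⟨p, q, hq, hz⟩ := hx.surj z
  exact ⟨⟨aeval x p, aeval_mem_locRing _ p⟩, ⟨aeval x q, aeval_mem_locRing _ q⟩, hz⟩

/-- The generator of a prime of `K[x]`. -/
noncomputable def polyElt (K : Type) [Field K] {F : Type} [Field F] [Algebra K F] (x : F)
    (p : K[X]) : polyRing K x := ⟨aeval x p, p, rfl⟩

/-- `K[X]` and `K[x]` are isomorphic. -/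
noncomputable def polyEquiv (hx : IsGen K x) : K[X] ≃* polyRing K x :=
  (AlgEquiv.ofInjective (aeval x : K[X] →ₐ[K] F) hx.inj).toMulEquiv

/-- `K[X]` and `K[x]` are isomorphic by `hx.inj`. -/
theorem polyElt_prime (hx : IsGen K x) {p : K[X]} (hp : Prime p) : Prime (polyElt K x p) := by
  have he : polyElt K x p = polyEquiv hx p := rfl
  rw [he]
  exact (MulEquiv.prime_iff (polyEquiv hx)).2 hp

theorem polyElt_dvd (hx : IsGen K x) {p q : K[X]} : polyElt K x p ∣ polyElt K x q ↔ p ∣ q := by
  have he : ∀ f : K[X], polyElt K x f = polyEquiv hx f := fun _ => rfl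
  rw [he, he]
  exact map_dvd_iff (polyEquiv hx)

theorem locRing_isLocOf (hx : IsGen K x) {p : K[X]} (hp : Prime p) (P : Ideal K[X]) [P.IsPrime]
    (hP : P = Ideal.span {p}) : IsLocOf (polyRing K x) (locRing K x P) F (polyElt K x p) := by
  have hmem : ∀ f : K[X], f ∉ P ↔ ¬ polyElt K x p ∣ polyElt K x f := by
    intro f
    rw [polyElt_dvd hx, hP, Ideal.mem_span_singleton]
  refine ⟨?_, ?_, ?_⟩
  · rintro ⟨_, f, rfl⟩
    exact ⟨⟨aeval x f, aeval_mem_locRing _ f⟩, rfl⟩
  · rintro ⟨_, s, rfl⟩ hs
    have hs' : s ∉ P := (hmem s).2 hs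
    have hs0 : aeval x s ≠ 0 := hx.aeval_ne_zero (ne_zero_of_notMem_ideal hs')
    refine ⟨⟨(aeval x s)⁻¹, 1, s, hs', ?_⟩, ?_⟩
    · rw [inv_mul_cancel₀ hs0, map_one]
    · exact mul_inv_cancel₀ hs0
  · rintro ⟨z, a, s, hs, h⟩
    exact ⟨polyElt K x a, polyElt K x s, (hmem s).1 hs, h⟩

/-- Evaluation at `a`: from `locRing_isLocalization` and `IsLocalization.lift`, or directly
`z ↦ p(a) / q(a)` (well defined by `hx.inj`). -/
theorem exists_evalAt (hx : IsGen K x) (a : K) : ∃ φ : locRing K x (primeAt a) →ₐ[K] K,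
    ∀ f : K[X], φ ⟨aeval x f, aeval_mem_locRing _ f⟩ = f.eval a := by
  let _ : Algebra K[X] (locRing K x (primeAt a)) := ((aeval x : K[X] →ₐ[K] F).codRestrict _
      (aeval_mem_locRing (x := x) (primeAt a))).toRingHom.toAlgebra
  have : IsLocalization.AtPrime (locRing K x (primeAt a)) (primeAt a) :=
    locRing_isLocalization hx (primeAt a)
  have hu : ∀ y : (primeAt a).primeCompl, IsUnit (Polynomial.evalRingHom a y) := by
    rintro ⟨q, hq⟩
    rw [isUnit_iff_ne_zero]
    intro h
    apply hq
    change q ∈ Ideal.span {X - C a}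
    rw [Ideal.mem_span_singleton, Polynomial.dvd_iff_isRoot]
    exact h
  let ψ : locRing K x (primeAt a) →+* K := IsLocalization.lift hu
  have hψ : ∀ f : K[X], ψ (algebraMap K[X] (locRing K x (primeAt a)) f) = f.eval a := by
    intro f
    exact IsLocalization.lift_eq hu f
  refine ⟨{ ψ with commutes' := ?_ }, ?_⟩
  · intro c
    have := hψ (C c)
    rw [eval_C] at this
    rw [Algebra.algebraMap_self, RingHom.id_apply]
    refine Eq.trans ?_ this
    change ψ _ = ψ _
    congr 1
    apply Subtype.ext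
    change algebraMap K F c = aeval x (C c)
    rw [aeval_C]
  · intro f
    exact hψ f

theorem IsGen.ne_zero (hx : IsGen K x) : x ≠ 0 := by
  intro h
  have : (X : K[X]) = 0 := hx.inj (by rw [aeval_X, map_zero, h])
  exact X_ne_zero this

/-- `x⁻¹` is a generator: `aeval x⁻¹ p * x ^ n = aeval x p.reverse`-type identities
(`Polynomial.eval₂_reverse_mul_pow`, `Polynomial.reverse`). -/
theorem IsGen.inv (hx : IsGen K x) : IsGen K x⁻¹ := by
  have hx0 : x ≠ 0 := hx.ne_zero
  have key : ∀ f : K[X], aeval x⁻¹ f.reverse * x ^ f.natDegree = aeval x f := by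
    intro f
    let _ : Invertible x := invertibleOfNonzero hx0
    have h := eval₂_reverse_mul_pow (algebraMap K F) x f
    rw [invOf_eq_inv] at h
    exact h
  have key' : ∀ f : K[X], aeval x f.reverse * x⁻¹ ^ f.natDegree = aeval x⁻¹ f := by
    intro f
    let _ : Invertible x⁻¹ := invertibleOfNonzero (inv_ne_zero hx0)
    have h := eval₂_reverse_mul_pow (algebraMap K F) x⁻¹ f
    rw [invOf_eq_inv, inv_inv] at h
    exact h
  refine ⟨?_, ?_⟩
  · refine (injective_iff_map_eq_zero _).2 fun f hf => ?_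
    have h1 := key' f
    rw [hf] at h1
    have h2 : aeval x f.reverse = 0 :=
      (mul_eq_zero.1 h1).resolve_right (pow_ne_zero _ (inv_ne_zero hx0))
    have h3 : f.reverse = 0 := hx.inj (by rw [h2, map_zero])
    exact reverse_eq_zero.1 h3
  · intro z
    obtain ⟨p, q, hq, rfl⟩ := hx.surj z
    have hq' : aeval x⁻¹ q.reverse ≠ 0 := by
      intro h
      apply hq
      rw [← key q, h, zero_mul]
    refine ⟨p.reverse * X ^ q.natDegree, q.reverse * X ^ p.natDegree, ?_, ?_⟩
    · rw [map_mul, map_pow, aeval_X]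
      exact mul_ne_zero hq' (pow_ne_zero _ (inv_ne_zero hx0))
    · rw [← key p, ← key q, map_mul, map_mul, map_pow, map_pow, aeval_X, inv_pow, inv_pow]
      have hp1 : x ^ p.natDegree ≠ 0 := pow_ne_zero _ hx0
      have hq1 : x ^ q.natDegree ≠ 0 := pow_ne_zero _ hx0
      field_simp

end BB37
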