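import Pool.Agent.Lib.MP_bb37eb_nt.BR.AzuBase
import Pool.Agent.Lib.MP_bb37eb_nt.P.Place

/-! Evaluation systems on the affine line. -/

namespace BB37

open Polynomial
open scoped TensorProduct

/-- an evaluation system on the affine line over `K`: classes at all points, Zariski-locally given
by Azumaya algebras -/
structure LineClass (K : Type) [Field K] where
  ev : ∀ (K' : Type) [Field K'] [CharZero K'] [Algebra K K'], K' → BrauerGroup.{0, 0} K'
  loc : ∀ 𝔭 : Ideal (Polynomial K), 𝔭.IsPrime → ∃ (h : Polynomial K) (_ : h ∉ 𝔭) (A : Type)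
    (_ : Ring A) (_ : Algebra (Localization.Away h) A), IsAzumaya (Localization.Away h) A ∧
    ∀ (K' : Type) [Field K'] [CharZero K'] [Algebra K K'] (t : K')
      (θ : Localization.Away h →+* K')
      (_ : ∀ f : Polynomial K, θ (algebraMap _ _ f) = Polynomial.aeval t f),
      letI := θ.toAlgebra
      ∃ B : CSA.{0, 0} K', ev K' t = Quotient.mk (Brauer.CSA_Setoid K') B ∧
        Nonempty (K' ⊗[Localization.Away h] A ≃ₐ[K'] B)

/-- the coordinate as an element of a local ring -/
noncomputable def coord (K : Type) [Field K] {F : Type} [Field F] [Algebra K F] (x : F)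
    (P : Ideal K[X]) [P.IsPrime] : locRing K x P :=
  ⟨aeval x (X : K[X]), aeval_mem_locRing P X⟩

/-- The algebras of an evaluation system over the local rings. -/
theorem local_azu {K : Type} [Field K] (α : LineClass K) {F : Type} [Field F] [Algebra K F]
    {x : F} (hx : IsGen K x) (P : Ideal K[X]) [hP : P.IsPrime] :
    ∃ (A : Type) (_ : Ring A) (_ : Algebra (locRing K x P) A), Module.Finite (locRing K x P) A ∧
      Module.Projective (locRing K x P) A ∧
      ∀ (K' : Type) [Field K'] [CharZero K'] [Algebra K K'] [Algebra (locRing K x P) K']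
        [IsScalarTower K (locRing K x P) K'],
        ∃ B : CSA.{0, 0} K', α.ev K' (algebraMap (locRing K x P) K' (coord K x P)) =
            Quotient.mk (Brauer.CSA_Setoid K') B ∧
          Nonempty (K' ⊗[locRing K x P] A ≃ₐ[K'] B) := by
  obtain ⟨h, hh, A', _, _, hA', hloc⟩ := α.loc P hP
  letI i1 : Algebra K[X] (locRing K x P) := ((aeval x : K[X] →ₐ[K] F).codRestrict _
    (aeval_mem_locRing (x := x) P)).toRingHom.toAlgebra
  have i2 : IsLocalization.AtPrime (locRing K x P) P := locRing_isLocalization hx P
  have hu : IsUnit (algebraMap K[X] (locRing K x P) h) :=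
    IsLocalization.map_units (locRing K x P) (⟨h, hh⟩ : P.primeCompl)
  let ψ : Localization.Away h →+* locRing K x P :=
    IsLocalization.Away.lift h (g := algebraMap K[X] (locRing K x P)) hu
  letI i3 : Algebra (Localization.Away h) (locRing K x P) := ψ.toAlgebra
  refine ⟨locRing K x P ⊗[Localization.Away h] A', inferInstance, inferInstance, inferInstance,
    inferInstance, ?_⟩
  intro K' _ _ _ _ _
  let θ : Localization.Away h →+* K' := (algebraMap (locRing K x P) K').comp ψ
  have hθ : ∀ f : K[X], θ (algebraMap _ _ f) =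
      aeval (algebraMap (locRing K x P) K' (coord K x P)) f := by
    intro f
    have h1 : ψ (algebraMap _ _ f) = algebraMap K[X] (locRing K x P) f :=
      IsLocalization.Away.lift_eq h hu f
    have h2 : θ (algebraMap _ _ f) =
        algebraMap (locRing K x P) K' (algebraMap K[X] (locRing K x P) f) :=
      congrArg (algebraMap (locRing K x P) K') h1
    rw [h2]
    let g : K[X] →ₐ[K] K' := (IsScalarTower.toAlgHom K (locRing K x P) K').comp
      ((aeval x : K[X] →ₐ[K] F).codRestrict _ (aeval_mem_locRing (x := x) P))
    have h3 : g = aeval (algebraMap (locRing K x P) K' (coord K x P)) := by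
      apply Polynomial.algHom_ext
      rw [aeval_X]
      rfl
    exact DFunLike.congr_fun h3 f
  letI i4 : Algebra (Localization.Away h) K' := θ.toAlgebra
  have i5 : IsScalarTower (Localization.Away h) (locRing K x P) K' :=
    IsScalarTower.of_algebraMap_eq' rfl
  obtain ⟨B, hB, ⟨e⟩⟩ := hloc K' _ θ hθ
  exact ⟨B, hB, ⟨(fibreTrans' (Localization.Away h) (locRing K x P) K' A').trans e⟩⟩

end BB37
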