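import Pool.Agent.Lib.MP_bb37eb_nt.P.Order

/-! Matrices over a maximal order; fibres of matrix algebras. -/

namespace BB37

open Module TensorProduct

private theorem mem_mat {O D : Type} [CommRing O] [Ring D] [Algebra O D] {Λ : Subalgebra O D}
    {r : ℕ} {M : Matrix (Fin r) (Fin r) D} :
    M ∈ Λ.matrix (n := Fin r) ↔ ∀ i j, M i j ∈ Λ := Iff.rfl

/-- The matrices over a maximal order are a maximal order.
Proof. `r = 0`: everything is zero (`Subsingleton`). Otherwise: order: finitely generated because it
is the span of the matrices `Matrix.single i j g`, `g` in a finite set of generators of `Λ`;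
denominators: product of the denominators of the entries. Maximal: let
`Γ'` be an order containing `Λ.matrix`. It contains the matrix units. For `γ ∈ Γ'` and `i j`
the scalar matrix of `γ i j`, which is `∑ k, single k i 1 * γ * single j k 1`, lies in `Γ'`. Let
`Λ' = {x | Matrix.scalar x ∈ Γ'}` (`Γ'.comap` of the algebra map `Matrix.scalarAlgHom`), a subalgebra
containing `Λ`; it embeds as an `O`-module in the Noetherian module `Γ'`, so it is finitely
generated, so it is an order and `Λ' ≤ Λ`. Hence all entries of elements of `Γ'` are in `Λ`. -/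
theorem matrix_isMaxOrd (O D : Type) [CommRing O] [IsDomain O] [IsPrincipalIdealRing O] [Ring D]
    [Algebra O D] (Λ : Subalgebra O D) (hΛ : IsMaxOrd O Λ) (r : ℕ) :
    IsMaxOrd O (Λ.matrix (n := Fin r)) := by
  classical
  refine ⟨⟨?_, ?_⟩, ?_⟩
  · -- finitely generated
    have hfin : Module.Finite O Λ := Module.Finite.iff_fg.2 hΛ.1.fg
    let φ : (Fin r → Fin r → Λ) →ₗ[O] Matrix (Fin r) (Fin r) D :=
      { toFun := fun f => Matrix.of fun i j => (f i j : D)
        map_add' := fun f g => by ext i j; simp
        map_smul' := fun c f => by ext i j; simp }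
    have hrange : LinearMap.range φ = Subalgebra.toSubmodule (Λ.matrix (n := Fin r)) := by
      ext M
      rw [LinearMap.mem_range, Subalgebra.mem_toSubmodule, mem_mat]
      constructor
      · rintro ⟨f, rfl⟩ i j
        exact (f i j).2
      · intro hM
        exact ⟨fun i j => ⟨M i j, hM i j⟩, by ext i j; rfl⟩
    rw [← hrange, LinearMap.range_eq_map]
    exact Submodule.FG.map φ Module.Finite.fg_top
  · -- denominators
    intro x
    choose c hc0 hc using fun i j => hΛ.1.den (x i j)
    refine ⟨∏ q : Fin r × Fin r, c q.1 q.2, Finset.prod_ne_zero_iff.2 fun q _ => hc0 q.1 q.2, ?_⟩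
    rw [mem_mat]
    intro i j
    obtain ⟨d, hd⟩ := Finset.dvd_prod_of_mem (fun q : Fin r × Fin r => c q.1 q.2)
      (Finset.mem_univ (i, j))
    rw [Matrix.smul_apply, hd, mul_comm, mul_smul]
    exact Λ.smul_mem (hc i j) d
  · -- maximal
    intro Γ hΓ hle γ hγ
    rw [mem_mat]
    intro i j
    let Λ' : Subalgebra O D := Γ.comap (Matrix.scalarAlgHom (Fin r) O)
    have hmem : ∀ x : D, x ∈ Λ' ↔ Matrix.scalar (Fin r) x ∈ Γ := fun x => Iff.rfl
    have hsub : Λ ≤ Λ' := by
      intro x hx
      rw [hmem]
      apply hle
      rw [mem_mat]
      intro a b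
      by_cases hab : a = b
      · subst hab
        simpa using hx
      · simp [Matrix.scalar_apply, Matrix.diagonal_apply_ne _ hab, Λ.zero_mem]
    have hord : IsOrd O Λ' := by
      refine ⟨?_, ?_⟩
      · have hfin : Module.Finite O Γ := Module.Finite.iff_fg.2 hΓ.fg
        have hnoeth : IsNoetherian O Γ := inferInstance
        let ψ : Λ' →ₗ[O] Γ :=
          { toFun := fun x => ⟨Matrix.scalar (Fin r) (x : D), x.2⟩
            map_add' := fun x y => by
              apply Subtype.ext
              simp
            map_smul' := fun a x => by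
              apply Subtype.ext
              ext u v
              simp only [Matrix.scalar_apply, Subalgebra.coe_smul, RingHom.id_apply,
                Matrix.smul_apply]
              by_cases huv : u = v
              · subst huv
                simp
              · simp [Matrix.diagonal_apply_ne _ huv] }
        have hinj : Function.Injective ψ := by
          intro x y hxy
          apply Subtype.ext
          have h1 : Matrix.scalar (Fin r) (x : D) = Matrix.scalar (Fin r) (y : D) :=
            congrArg Subtype.val hxy
          have h2 := congrFun (congrFun h1 i) i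
          simpa [Matrix.scalar_apply] using h2
        have hn : IsNoetherian O Λ' := isNoetherian_of_injective ψ hinj
        exact Module.Finite.iff_fg.1 (inferInstance : Module.Finite O Λ')
      · intro x
        obtain ⟨c, hc, hcx⟩ := hΛ.1.den x
        exact ⟨c, hc, hsub hcx⟩
    apply hΛ.2 Λ' hord hsub
    rw [hmem]
    have hsingle : ∀ a b : Fin r, Matrix.single a b (1 : D) ∈ Γ := by
      intro a b
      apply hle
      rw [mem_mat]
      intro u v
      rw [Matrix.single_apply]
      split_ifs
      · exact Λ.one_mem
      · exact Λ.zero_mem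
    have hsum : Matrix.scalar (Fin r) (γ i j) =
        ∑ k : Fin r, Matrix.single k i (1 : D) * γ * Matrix.single j k 1 := by
      ext u v
      rw [Matrix.sum_apply]
      simp only [Matrix.single_mul_mul_single, one_mul, mul_one, Matrix.single_apply,
        Matrix.scalar_apply, Matrix.diagonal_apply]
      by_cases huv : u = v
      · subst huv
        simp
      · rw [if_neg huv]
        symm
        apply Finset.sum_eq_zero
        intro k _
        rw [if_neg]
        rintro ⟨h1, h2⟩
        exact huv (h1.symm.trans h2)
    rw [hsum]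
    exact Γ.sum_mem fun k _ => Γ.mul_mem (Γ.mul_mem (hsingle k i) hγ) (hsingle j k)

/-- The algebra of matrices over a subalgebra. (Entrywise.) -/
theorem matrix_equiv (O D : Type) [CommRing O] [Ring D] [Algebra O D] (Λ : Subalgebra O D)
    (r : ℕ) : Nonempty ((Λ.matrix (n := Fin r)) ≃ₐ[O] Matrix (Fin r) (Fin r) Λ) := by
  refine ⟨
    { toFun := fun M => Matrix.of fun i j => ⟨M.1 i j, M.2 i j⟩
      invFun := fun M => ⟨Matrix.of fun i j => (M i j : D), fun i j => (M i j).2⟩
      left_inv := fun M => by
        ext i j
        rfl
      right_inv := fun M => by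
        ext i j
        rfl
      map_mul' := fun M N => by
        ext i j
        simp [Matrix.mul_apply]
      map_add' := fun M N => by
        ext i j
        rfl
      commutes' := fun x => by
        ext i j
        by_cases h : i = j
        · subst h
          simp [Matrix.algebraMap_matrix_apply]
        · simp [Matrix.algebraMap_matrix_apply, h] }⟩

/-- The fibre of a matrix algebra. Proof: for instance the algebra map
`Algebra.TensorProduct.lift` of the scalars `k → Matrix (k ⊗ Λ)` and of
`(Algebra.TensorProduct.includeRight).mapMatrix` is bijective; or `matrixEquivTensor` twice with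
`Algebra.TensorProduct.assoc`. -/
theorem fibre_matrix (O k Λ : Type) [CommRing O] [CommRing k] [Algebra O k] [Ring Λ]
    [Algebra O Λ] (n : ℕ) :
    Nonempty (k ⊗[O] Matrix (Fin n) (Fin n) Λ ≃ₐ[k] Matrix (Fin n) (Fin n) (k ⊗[O] Λ)) := by
  let f : k ⊗[O] Matrix (Fin n) (Fin n) Λ →ₐ[k] Matrix (Fin n) (Fin n) (k ⊗[O] Λ) :=
    Algebra.TensorProduct.lift (Algebra.ofId k _)
      ((Algebra.TensorProduct.includeRight : Λ →ₐ[O] k ⊗[O] Λ).mapMatrix)
      (fun c M => Algebra.commutes c _)
  let e : k ⊗[O] (Fin n → Fin n → Λ) ≃ₗ[k] (Fin n → Fin n → k ⊗[O] Λ) :=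
    (TensorProduct.piRight O k k (fun _ : Fin n => (Fin n → Λ))).trans
      (LinearEquiv.piCongrRight fun _ => TensorProduct.piRight O k k (fun _ : Fin n => Λ))
  have hfe : ∀ x, f x = e x := by
    intro x
    induction x using TensorProduct.induction_on with
    | zero => rw [map_zero]; exact (map_zero e).symm
    | tmul c M =>
      ext i j
      simp [f, e, Algebra.ofId_apply, Matrix.algebraMap_eq_diagonal, Matrix.diagonal_mul,
        Pi.algebraMap_apply]
      rfl
    | add x y hx hy => rw [map_add, hx, hy]; exact (map_add e x y).symm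
  exact ⟨AlgEquiv.ofBijective f ⟨fun x y h => e.injective (by rw [← hfe, ← hfe, h]),
    fun y => ⟨e.symm y, by rw [hfe]; exact e.apply_symm_apply y⟩⟩⟩

end BB37
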