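import Pool.Agent.Lib.MP_bb37eb_nt.P.Conj
import Pool.Agent.Lib.MP_bb37eb_nt.P.MatOrd

/-! The fibre of a maximal order of an unramified algebra. -/

namespace BB37

open Module TensorProduct

theorem exists_den (O F A : Type) [CommRing O] [IsDomain O] [Field F] [Algebra O F]
    [IsFractionRing O F] [Ring A] [Algebra O A] (z : F ⊗[O] A) :
    ∃ r : O, r ≠ 0 ∧ ∃ a : A, r • z = (1 : F) ⊗ₜ[O] a := by
  induction z using TensorProduct.induction_on with
  | zero => exact ⟨1, one_ne_zero, 0, by simp⟩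
  | tmul f a =>
    obtain ⟨p, q, hq, rfl⟩ := IsFractionRing.div_surjective (A := O) f
    have hq0 : algebraMap O F q ≠ 0 := by
      rw [Ne, IsFractionRing.to_map_eq_zero_iff]
      exact nonZeroDivisors.ne_zero hq
    refine ⟨q, nonZeroDivisors.ne_zero hq, p • a, ?_⟩
    rw [TensorProduct.smul_tmul', ← TensorProduct.smul_tmul, Algebra.smul_def, Algebra.smul_def,
      mul_div_cancel₀ _ hq0, mul_one]
  | add y z hy hz =>
    obtain ⟨r, hr, a, ha⟩ := hy
    obtain ⟨s, hs, c, hc⟩ := hz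
    refine ⟨r * s, mul_ne_zero hr hs, s • a + r • c, ?_⟩
    rw [smul_add, TensorProduct.tmul_add, TensorProduct.tmul_smul, TensorProduct.tmul_smul, ← ha,
      ← hc, smul_smul, smul_smul, mul_comm s r]

/-- The fibre of a maximal order at a place where the algebra is unramified. -/
theorem local_fibre (O F k : Type) [CommRing O] [IsDomain O] [IsPrincipalIdealRing O]
    [IsLocalRing O] [Field F] [Algebra O F] [IsFractionRing O F] [Field k] [Algebra O k]
    (hk : Function.Surjective (algebraMap O k)) (D : Type) [Ring D] [Algebra O D] [Algebra F D]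
    [IsScalarTower O F D] [FiniteDimensional F D] (Λ : Subalgebra O D) (hΛ : IsMaxOrd O Λ)
    (A : Type) [Ring A] [Algebra O A] [Module.Finite O A] [Module.Flat O A]
    [IsSimpleRing (k ⊗[O] A)] (r s : ℕ) (hs : s ≠ 0)
    (e : Matrix (Fin r) (Fin r) D ≃ₐ[F] Matrix (Fin s) (Fin s) (F ⊗[O] A)) :
    Nonempty (Matrix (Fin r) (Fin r) (k ⊗[O] Λ) ≃ₐ[k] Matrix (Fin s) (Fin s) (k ⊗[O] A)) := by
  have hne : Nonempty (Fin s) := ⟨⟨0, Nat.pos_of_ne_zero hs⟩⟩
  let ι : Matrix (Fin s) (Fin s) A →ₐ[O] Matrix (Fin r) (Fin r) D :=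
    ((e.symm.toAlgHom).restrictScalars O).comp
      (Algebra.TensorProduct.includeRight : A →ₐ[O] F ⊗[O] A).mapMatrix
  have hι : Function.Injective ι := by
    refine e.symm.injective.comp ?_
    intro M N h
    ext i j
    have h1 := congrFun (congrFun h i) j
    exact Algebra.TensorProduct.includeRight_injective (IsFractionRing.injective O F) h1
  have hB : IsOrd O ι.range := by
    refine ⟨?_, fun c => ?_⟩
    · have h1 : Module.Finite O (LinearMap.range ι.toLinearMap) := inferInstance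
      exact Module.Finite.iff_fg.mp h1
    · have h1 : ∀ i j, ∃ r : O, r ≠ 0 ∧ ∃ a : A, r • (e c i j) = (1 : F) ⊗ₜ[O] a :=
        fun i j => exists_den O F A _
      choose d hd a ha using h1
      refine ⟨∏ i, ∏ j, d i j, Finset.prod_ne_zero_iff.mpr fun i _ =>
        Finset.prod_ne_zero_iff.mpr fun j _ => hd i j, ?_⟩
      have h2 : ∀ i j, ∃ t : O, ∏ i, ∏ j, d i j = t * d i j := fun i j => by
        have h3 : d i j ∣ ∏ i, ∏ j, d i j :=
          (Finset.dvd_prod_of_mem (d i) (Finset.mem_univ j)).trans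
            (Finset.dvd_prod_of_mem (fun i => ∏ j, d i j) (Finset.mem_univ i))
        obtain ⟨t, ht⟩ := h3
        exact ⟨t, by rw [ht, mul_comm]⟩
      choose t ht using h2
      refine ⟨Matrix.of fun i j => t i j • a i j, ?_⟩
      apply e.injective
      ext i j
      have h4 : e ((∏ i, ∏ j, d i j) • c) = (∏ i, ∏ j, d i j) • e c := by
        rw [← algebraMap_smul F (∏ i, ∏ j, d i j) c, map_smul, algebraMap_smul]
      rw [h4]
      have h5 : e (ι (Matrix.of fun i j => t i j • a i j)) =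
          (Algebra.TensorProduct.includeRight : A →ₐ[O] F ⊗[O] A).mapMatrix
            (Matrix.of fun i j => t i j • a i j) := e.apply_symm_apply _
      refine (congrFun (congrFun h5 i) j).trans ?_
      rw [Matrix.smul_apply, ht i j, mul_smul, ha i j, ← TensorProduct.tmul_smul]
      rfl
  obtain ⟨e1⟩ := fibre_matrix O k A s
  let e2 : Matrix (Fin s) (Fin s) A ≃ₐ[O] ι.range := AlgEquiv.ofInjective ι hι
  let e3 : k ⊗[O] Matrix (Fin s) (Fin s) A ≃ₐ[k] k ⊗[O] ι.range :=
    Algebra.TensorProduct.congr AlgEquiv.refl e2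
  have hsimp : IsSimpleRing (k ⊗[O] ι.range) :=
    IsSimpleRing.of_ringEquiv (e1.symm.trans e3).toRingEquiv inferInstance
  obtain ⟨e4⟩ := equiv_of_max O F k hk (Λ.matrix (n := Fin r)) ι.range
    (matrix_isMaxOrd O D Λ hΛ r) hB
  obtain ⟨e5⟩ := matrix_equiv O D Λ r
  obtain ⟨e6⟩ := fibre_matrix O k Λ r
  let e7 : k ⊗[O] Matrix (Fin r) (Fin r) Λ ≃ₐ[k] k ⊗[O] ι.range :=
    Algebra.TensorProduct.congr AlgEquiv.refl (e5.symm.trans e4)
  exact ⟨e6.symm.trans (e7.trans (e3.symm.trans e1))⟩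

end BB37
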