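import Pool.Agent.Lib.MP_bb37eb_nt.P.LocalFibre
import Pool.Agent.Lib.MP_bb37eb_nt.P.Line
import Pool.Agent.Lib.MP_bb37eb_nt.P.Gram

/-! Brauer equivalence with a non-central algebra, the skew field of a class, the class of a
fibre. -/

namespace BB37

open Module TensorProduct Polynomial

/-- Matrices of two algebras are isomorphic. -/
def MatEq (K A B : Type) [Field K] [Ring A] [Algebra K A] [Ring B] [Algebra K B] : Prop :=
  ∃ n m : ℕ, n ≠ 0 ∧ m ≠ 0 ∧ Nonempty (Matrix (Fin n) (Fin n) A ≃ₐ[K] Matrix (Fin m) (Fin m) B)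

section

variable {K A B C : Type} [Field K] [Ring A] [Algebra K A] [Ring B] [Algebra K B] [Ring C]
  [Algebra K C]

theorem MatEq.symm (h : MatEq K A B) : MatEq K B A := by
  obtain ⟨n, m, hn, hm, ⟨e⟩⟩ := h
  exact ⟨m, n, hm, hn, ⟨e.symm⟩⟩

theorem MatEq.of_equiv (e : A ≃ₐ[K] B) : MatEq K A B :=
  ⟨1, 1, one_ne_zero, one_ne_zero, ⟨e.mapMatrix⟩⟩

open Matrix in
theorem MatEq.trans (hAB : MatEq K A B) (hBC : MatEq K B C) : MatEq K A C := by
  obtain ⟨n, m, hn, hm, ⟨iso1⟩⟩ := hAB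
  obtain ⟨p, q, hp, hq, ⟨iso2⟩⟩ := hBC
  exact ⟨p * n, m * q, by simp_all, by simp_all,
    ⟨reindexAlgEquiv _ _ finProdFinEquiv |>.symm.trans <| compAlgEquiv _ _ _ _|>.symm.trans <|
    iso1.mapMatrix (m := Fin p)|>.trans <| compAlgEquiv _ _ _ _|>.trans <|
    reindexAlgEquiv K B (.prodComm (Fin p) (Fin m))|>.trans <| compAlgEquiv _ _ _ _|>.symm.trans <|
    iso2.mapMatrix.trans <| compAlgEquiv _ _ _ _|>.trans <| reindexAlgEquiv _ _ finProdFinEquiv⟩⟩

theorem MatEq.of_matrix {n : ℕ} (hn : n ≠ 0) (e : A ≃ₐ[K] Matrix (Fin n) (Fin n) B) :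
    MatEq K A B :=
  ⟨1, n, one_ne_zero, hn,
    ⟨(Matrix.reindexAlgEquiv K A (Equiv.ofUnique (Fin 1) Unit)).trans
      ((Matrix.uniqueAlgEquiv (m := Unit) (R := K) (A := A)).trans e)⟩⟩

theorem mk_eq_of_matEq {X Y : CSA.{0, 0} K} (h : MatEq K X Y) :
    Quotient.mk (Brauer.CSA_Setoid K) X = Quotient.mk (Brauer.CSA_Setoid K) Y :=
  Quotient.sound h

theorem matEq_of_mk_eq {X Y : CSA.{0, 0} K}
    (h : Quotient.mk (Brauer.CSA_Setoid K) X = Quotient.mk (Brauer.CSA_Setoid K) Y) :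
    MatEq K X Y :=
  Quotient.exact h

theorem simple_of_matEq [IsSimpleRing B] (h : MatEq K A B) : IsSimpleRing A := by
  obtain ⟨n, m, hn, hm, ⟨e⟩⟩ := h
  have h1 : Nonempty (Fin n) := ⟨⟨0, Nat.pos_of_ne_zero hn⟩⟩
  have h2 : Nonempty (Fin m) := ⟨⟨0, Nat.pos_of_ne_zero hm⟩⟩
  have h3 : IsSimpleRing (Matrix (Fin n) (Fin n) A) :=
    IsSimpleRing.of_ringEquiv e.symm.toRingEquiv inferInstance
  have h4 : IsSimpleOrder (TwoSidedIdeal (Matrix (Fin n) (Fin n) A)) := h3.simple
  exact ⟨(TwoSidedIdeal.orderIsoMatrix (R := A) (n := Fin n)).isSimpleOrder_iff.2 h4⟩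

end

/-- The skew field of a Brauer class. -/
theorem exists_skew (F : Type) [Field F] (c : BrauerGroup.{0, 0} F) :
    ∃ (D : Type) (_ : DivisionRing D) (_ : Algebra F D), FiniteDimensional F D ∧
      ∀ B : CSA.{0, 0} F, c = Quotient.mk (Brauer.CSA_Setoid F) B → MatEq F D B := by
  obtain ⟨C, rfl⟩ := Quotient.exists_rep c
  have h1 : IsArtinianRing C := IsArtinianRing.of_finite F C
  obtain ⟨n, hn, D, _, _, _, ⟨e⟩⟩ := IsSimpleRing.exists_algEquiv_matrix_divisionRing_finite F C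
  refine ⟨D, inferInstance, inferInstance, inferInstance, fun B hB => ?_⟩
  exact (MatEq.of_matrix hn.ne e).symm.trans (matEq_of_mk_eq hB)

/-- The class of the fibre of a maximal order. -/
theorem fibre_class {K : Type} [Field K] [CharZero K] (α : LineClass K) {F : Type} [Field F]
    [CharZero F] [Algebra K F] {x : F} (hx : IsGen K x) (P : Ideal K[X]) [P.IsPrime] (D : Type)
    [DivisionRing D] [Algebra F D] [FiniteDimensional F D]
    (hD : ∀ B : CSA.{0, 0} F, α.ev F x = Quotient.mk (Brauer.CSA_Setoid F) B → MatEq F D B)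
    (Λ : Subalgebra (locRing K x P) D) (hΛ : IsMaxOrd (locRing K x P) Λ) (k : Type) [Field k]
    [CharZero k] [Algebra K k] [Algebra (locRing K x P) k] [IsScalarTower K (locRing K x P) k]
    (hk : Function.Surjective (algebraMap (locRing K x P) k)) :
    ∃ B : CSA.{0, 0} k, α.ev k (algebraMap (locRing K x P) k (coord K x P)) =
      Quotient.mk (Brauer.CSA_Setoid k) B ∧ MatEq k (k ⊗[locRing K x P] Λ) B := by
  have i1 : IsLocalRing (locRing K x P) := locRing_local hx P
  have i2 : IsPrincipalIdealRing (locRing K x P) := locRing_pid hx P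
  have i3 : IsFractionRing (locRing K x P) F := locRing_frac hx P
  obtain ⟨A, _, _, hfin, hproj, hA⟩ := local_azu α hx P
  obtain ⟨B, hB, ⟨e⟩⟩ := hA k
  obtain ⟨B', hB', ⟨e'⟩⟩ := hA F
  have hc : algebraMap (locRing K x P) F (coord K x P) = x := by
    show aeval x (X : K[X]) = x
    rw [aeval_X]
  rw [hc] at hB'
  obtain ⟨r, s, hr, hs, ⟨e2⟩⟩ := (hD B' hB').trans (MatEq.of_equiv e'.symm)
  have i4 : IsSimpleRing (k ⊗[locRing K x P] A) :=
    IsSimpleRing.of_ringEquiv e.symm.toRingEquiv inferInstance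
  obtain ⟨e3⟩ := local_fibre (locRing K x P) F k hk D Λ hΛ A r s hs e2
  have h1 : MatEq k (k ⊗[locRing K x P] Λ) (k ⊗[locRing K x P] A) := ⟨r, s, hr, hs, ⟨e3⟩⟩
  exact ⟨B, hB, h1.trans (MatEq.of_equiv e)⟩

/-- The Gram determinant of a maximal order of an unramified algebra is a unit. -/
theorem gram_isUnit_of_max {K : Type} [Field K] [CharZero K] (α : LineClass K) {F : Type}
    [Field F] [CharZero F] [Algebra K F] {x : F} (hx : IsGen K x) (P : Ideal K[X]) [P.IsPrime]
    (D : Type) [DivisionRing D] [Algebra F D] [FiniteDimensional F D]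
    (hD : ∀ B : CSA.{0, 0} F, α.ev F x = Quotient.mk (Brauer.CSA_Setoid F) B → MatEq F D B)
    (Λ : Subalgebra (locRing K x P) D) (hΛ : IsMaxOrd (locRing K x P) Λ) {m : ℕ}
    (b : Basis (Fin m) F D) (hb : IsBasisOf (locRing K x P) b Λ) :
    ∃ u : (locRing K x P)ˣ, (gram F b).det = ((u : locRing K x P) : F) := by
  have i1 : IsLocalRing (locRing K x P) := locRing_local hx P
  have i2 : IsPrincipalIdealRing (locRing K x P) := locRing_pid hx P
  have i3 : IsFractionRing (locRing K x P) F := locRing_frac hx P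
  have i4 : CharZero (IsLocalRing.ResidueField (locRing K x P)) :=
    charZero_of_injective_algebraMap
      (algebraMap K (IsLocalRing.ResidueField (locRing K x P))).injective
  have hk : Function.Surjective (algebraMap (locRing K x P)
    (IsLocalRing.ResidueField (locRing K x P))) := IsLocalRing.residue_surjective
  obtain ⟨B, hB, hm⟩ := fibre_class α hx P D hD Λ hΛ
    (IsLocalRing.ResidueField (locRing K x P)) hk
  have i5 : IsSimpleRing (IsLocalRing.ResidueField (locRing K x P) ⊗[locRing K x P] Λ) :=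
    simple_of_matEq hm
  obtain ⟨c, hc⟩ := hb.basis
  obtain ⟨u, hu⟩ := gram_isUnit (locRing K x P) (IsLocalRing.ResidueField (locRing K x P)) Λ hk c
  refine ⟨u, ?_⟩
  rw [hu]
  have h1 : gram F b = (algebraMap (locRing K x P) F).mapMatrix (gram (locRing K x P) c) := by
    ext i j
    show rtr F (b i * b j) = algebraMap (locRing K x P) F (rtr (locRing K x P) (c i * c j))
    rw [hb.rtr_eq, Subalgebra.coe_mul, hc, hc]
  rw [h1, ← RingHom.map_det]
  rfl

end BB37
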