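import Mathlib
import Pool.Agent.Lib.MP_bb37eb_nt.P.Defs

/-! Orders over a principal ideal ring: bases, traces, existence of maximal orders. -/

namespace BB37

open Module

variable {R F C : Type} [CommRing R] [IsDomain R] [IsPrincipalIdealRing R] [Field F] [Algebra R F]
  [IsFractionRing R F] [Ring C] [Algebra R C] [Algebra F C] [IsScalarTower R F C]

/-- The elements of an order are the integral combinations of a suitable basis. -/
def IsBasisOf (R : Type) [CommRing R] {F C : Type} [Field F] [Algebra R F] [Ring C] [Algebra R C]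
    [Algebra F C] {m : ℕ} (b : Basis (Fin m) F C) (Λ : Subalgebra R C) : Prop :=
  ∀ x, x ∈ Λ ↔ ∀ i, ∃ r : R, b.repr x i = algebraMap R F r

theorem algebraMap_smul' (r : R) (x : C) : algebraMap R F r • x = r • x :=
  algebraMap_smul F r x

theorem IsOrd.isLattice (F : Type) [Field F] [Algebra R F] [IsFractionRing R F] [Algebra F C]
    [IsScalarTower R F C] {Λ : Subalgebra R C} (h : IsOrd R Λ) :
    Submodule.IsLattice F (Subalgebra.toSubmodule Λ) where
  fg := h.fg
  span_eq_top := by
    rw [eq_top_iff]
    intro x _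
    obtain ⟨r, hr, hx⟩ := h.den x
    have hr' : algebraMap R F r ≠ 0 := by
      rw [Ne, IsFractionRing.to_map_eq_zero_iff]; exact hr
    have h1 : ((algebraMap R F r)⁻¹) • (r • x) ∈
        Submodule.span F ((Subalgebra.toSubmodule Λ : Submodule R C) : Set C) :=
      Submodule.smul_mem _ _ (Submodule.subset_span hx)
    rwa [← algebraMap_smul F r x, smul_smul, inv_mul_cancel₀ hr', one_smul] at h1

theorem IsOrd.exists_basis [FiniteDimensional F C] {Λ : Subalgebra R C} (h : IsOrd R Λ) :
    ∃ b' : Basis (Fin (finrank F C)) F C, IsBasisOf R b' Λ := by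
  have := h.isLattice F
  have : Module.Finite R (Subalgebra.toSubmodule Λ) := Submodule.IsLattice.finite F _
  have : Module.Free R (Subalgebra.toSubmodule Λ) := Submodule.IsLattice.free F _
  have hrank : finrank R (Subalgebra.toSubmodule Λ) = finrank F C :=
    Module.finrank_eq_of_rank_eq (by
      rw [Submodule.IsLattice.rank' F (Subalgebra.toSubmodule Λ), Module.finrank_eq_rank])
  let b := Module.finBasisOfFinrankEq R (Subalgebra.toSubmodule Λ) hrank
  let b' := b.extendOfIsLattice F
  have hb' : ∀ i, b' i = (b i : C) := fun i => Basis.extendOfIsLattice_apply F b i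
  refine ⟨b', fun x => ⟨fun hx i => ?_, fun hx => ?_⟩⟩
  · obtain ⟨v, hv⟩ : ∃ v : Subalgebra.toSubmodule Λ, (v : C) = x := ⟨⟨x, hx⟩, rfl⟩
    refine ⟨b.repr v i, ?_⟩
    have e : (v : C) = ∑ j, (algebraMap R F (b.repr v j)) • b' j := by
      have := congrArg (fun t : Subalgebra.toSubmodule Λ => (t : C)) (b.sum_repr v)
      simp only [Submodule.coe_sum, Submodule.coe_smul_of_tower] at this
      conv_lhs => rw [← this]
      refine Finset.sum_congr rfl fun j _ => ?_
      rw [hb', algebraMap_smul]
    rw [← hv, e, Basis.repr_sum_self]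
  · choose r hr using hx
    have e : x = ∑ j, r j • (b j : C) := by
      conv_lhs => rw [← b'.sum_repr x]
      refine Finset.sum_congr rfl fun j _ => ?_
      rw [hr, hb', algebraMap_smul]
    rw [e]
    exact Λ.sum_mem fun j _ => Λ.smul_mem (b j).2 _

theorem IsBasisOf.mem {m : ℕ} {b : Basis (Fin m) F C} {Λ : Subalgebra R C} (h : IsBasisOf R b Λ)
    (i : Fin m) : b i ∈ Λ := by
  rw [h]
  intro j
  rw [Basis.repr_self, Finsupp.single_apply]
  split_ifs
  · exact ⟨1, (map_one _).symm⟩
  · exact ⟨0, (map_zero _).symm⟩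

/-- The basis of the order. -/
theorem IsBasisOf.basis {m : ℕ} {b : Basis (Fin m) F C} {Λ : Subalgebra R C}
    (h : IsBasisOf R b Λ) : ∃ c : Basis (Fin m) R Λ, ∀ i, (c i : C) = b i := by
  have hli : LinearIndependent R (fun i => (⟨b i, h.mem i⟩ : Λ)) := by
    have h1 : LinearIndependent R (fun i => b i) :=
      (b.linearIndependent).restrict_scalars (by
        intro r s hrs
        have : algebraMap R F r = algebraMap R F s := by
          have h2 := hrs
          simpa [Algebra.smul_def] using h2
        exact IsFractionRing.injective R F this)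
    exact LinearIndependent.of_comp Λ.val.toLinearMap h1
  refine ⟨Basis.mk hli ?_, fun i => by rw [Basis.mk_apply]⟩
  rintro ⟨x, hx⟩ -
  choose r hr using (h x).1 hx
  have e : (⟨x, hx⟩ : Λ) = ∑ j, r j • (⟨b j, h.mem j⟩ : Λ) := by
    apply Subtype.ext
    rw [AddSubmonoidClass.coe_finsetSum]
    refine (b.sum_repr x).symm.trans (Finset.sum_congr rfl fun j _ => ?_)
    rw [hr, algebraMap_smul]
    rfl
  rw [e]
  exact Submodule.sum_mem _ fun j _ => Submodule.smul_mem _ _ (Submodule.subset_span ⟨j, rfl⟩)

theorem IsBasisOf.isOrd {m : ℕ} {b : Basis (Fin m) F C} {Λ : Subalgebra R C}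
    (h : IsBasisOf R b Λ) : IsOrd R Λ := by
  classical
  obtain ⟨c, hc⟩ := h.basis
  refine ⟨?_, fun x => ?_⟩
  · have : Module.Finite R Λ := Module.Finite.of_basis c
    have : Module.Finite R (Subalgebra.toSubmodule Λ) := this
    exact Module.Finite.iff_fg.mp this
  · obtain ⟨r, hr⟩ := IsLocalization.exist_integer_multiples_of_finite (nonZeroDivisors R)
      (fun i => b.repr x i)
    refine ⟨r, nonZeroDivisors.ne_zero r.2, (h _).2 fun i => ?_⟩
    obtain ⟨z, hz⟩ := hr i
    refine ⟨z, ?_⟩
    rw [hz, ← algebraMap_smul F (r : R) x, map_smul, Finsupp.smul_apply, algebraMap_smul]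

/-- The regular trace over the order is the regular trace over the field. -/
theorem IsBasisOf.rtr_eq {m : ℕ} {b : Basis (Fin m) F C} {Λ : Subalgebra R C}
    (h : IsBasisOf R b Λ) (x : Λ) : algebraMap R F (rtr R x) = rtr F (x : C) := by
  classical
  obtain ⟨c, hc⟩ := h.basis
  unfold rtr
  rw [LinearMap.trace_eq_matrix_trace F b, LinearMap.trace_eq_matrix_trace R c, Matrix.trace,
    Matrix.trace, map_sum]
  refine Finset.sum_congr rfl fun i _ => ?_
  rw [Matrix.diag_apply, Matrix.diag_apply, LinearMap.toMatrix_apply, LinearMap.toMatrix_apply,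
    LinearMap.mulLeft_apply, LinearMap.mulLeft_apply]
  have e : (x : C) * b i = ∑ j, (algebraMap R F (c.repr (x * c i) j)) • b j := by
    have := congrArg (fun t : Λ => (t : C)) (c.sum_repr (x * c i))
    simp only [AddSubmonoidClass.coe_finsetSum, Subalgebra.coe_smul, Subalgebra.coe_mul, hc] at this
    conv_lhs => rw [← this]
    refine Finset.sum_congr rfl fun j _ => ?_
    rw [algebraMap_smul]
  rw [e, Basis.repr_sum_self]

theorem rtr_add (x y : C) : rtr F (x + y) = rtr F x + rtr F y := by
  unfold rtr
  rw [← map_add]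
  congr 1
  ext z
  simp [add_mul]

theorem rtr_smul (q : F) (x : C) : rtr F (q • x) = q * rtr F x := by
  unfold rtr
  rw [← smul_eq_mul, ← LinearMap.map_smul]
  congr 1
  ext z
  simp

theorem rtr_one_ne [CharZero F] [FiniteDimensional F C] [Nontrivial C] : rtr F (1 : C) ≠ 0 := by
  unfold rtr
  have : LinearMap.mulLeft F (1 : C) = 1 := by
    ext z; simp
  rw [this, LinearMap.trace_one]
  have : 0 < finrank F C := finrank_pos
  exact_mod_cast this.ne'

/-- Existence of an order. -/
theorem exists_order (R F C : Type) [CommRing R] [IsDomain R] [IsPrincipalIdealRing R] [Field F]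
    [Algebra R F] [IsFractionRing R F] [Ring C] [Algebra R C] [Algebra F C] [IsScalarTower R F C]
    [FiniteDimensional F C] : ∃ Λ : Subalgebra R C, IsOrd R Λ := by
  classical
  let b := Module.finBasis F C
  let L : Submodule R C := Submodule.span R (Set.range b)
  have den : ∀ x : C, ∃ k : R, k ≠ 0 ∧ k • x ∈ L := by
    intro x
    obtain ⟨c, hc⟩ := IsLocalization.exist_integer_multiples_of_finite (nonZeroDivisors R)
      (fun i => b.repr x i)
    refine ⟨c, nonZeroDivisors.ne_zero c.2, ?_⟩
    choose z hz using hc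
    have e : (c : R) • x = ∑ i, z i • b i := by
      conv_lhs => rw [← b.sum_repr x]
      rw [Finset.smul_sum]
      refine Finset.sum_congr rfl fun i _ => ?_
      rw [← algebraMap_smul F (z i) (b i), hz i, smul_assoc]
    rw [e]
    exact Submodule.sum_mem _ fun i _ => Submodule.smul_mem _ _ (Submodule.subset_span ⟨i, rfl⟩)
  let Λ : Subalgebra R C :=
    { carrier := {x | ∀ y ∈ L, x * y ∈ L}
      mul_mem' := fun {x y} hx hy z hz => by
        rw [mul_assoc]; exact hx _ (hy z hz)
      add_mem' := fun {x y} hx hy z hz => by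
        rw [add_mul]; exact L.add_mem (hx z hz) (hy z hz)
      algebraMap_mem' := fun r y hy => by
        rw [← Algebra.smul_def]; exact L.smul_mem r hy }
  have hLfg : L.FG := Submodule.fg_span (Set.finite_range b)
  have : Module.Finite R L := Module.Finite.iff_fg.mpr hLfg
  have : IsNoetherian R L := isNoetherian_of_isNoetherianRing_of_finite R L
  refine ⟨Λ, ?_, ?_⟩
  · let g : Subalgebra.toSubmodule Λ →ₗ[R] (Fin (finrank F C) → L) :=
      { toFun := fun x i => ⟨x * b i, x.2 _ (Submodule.subset_span ⟨i, rfl⟩)⟩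
        map_add' := fun x y => by
          funext i; apply Subtype.ext; simp [add_mul]
        map_smul' := fun c x => by
          funext i; apply Subtype.ext; simp }
    have hg : Function.Injective g := by
      intro x y hxy
      apply Subtype.ext
      have h1 : ∀ i, (x : C) * b i = y * b i := fun i =>
        congrArg (fun t : L => (t : C)) (congrFun hxy i)
      have h2 : LinearMap.mulLeft F (x : C) = LinearMap.mulLeft F (y : C) := by
        apply b.ext
        intro i
        simpa using h1 i
      have := LinearMap.congr_fun h2 1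
      simpa using this
    have : Module.Finite R (Subalgebra.toSubmodule Λ) := Module.Finite.of_injective g hg
    exact Module.Finite.iff_fg.mp inferInstance
  · intro x
    have h1 : ∀ i, ∃ k : R, k ≠ 0 ∧ k • (x * b i) ∈ L := fun i => den _
    choose k hk hk' using h1
    refine ⟨∏ i, k i, Finset.prod_ne_zero_iff.mpr fun i _ => hk i, ?_⟩
    intro y hy
    refine Submodule.span_induction (p := fun y _ => ((∏ i, k i) • x) * y ∈ L) ?_ ?_ ?_ ?_ hy
    · rintro _ ⟨i, rfl⟩
      obtain ⟨c, hc⟩ := Finset.dvd_prod_of_mem k (Finset.mem_univ i)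
      rw [hc, mul_comm (k i) c, mul_smul, smul_mul_assoc, smul_mul_assoc]
      exact L.smul_mem _ (hk' i)
    · simp
    · intro u v _ _ hu hv
      rw [mul_add]; exact L.add_mem hu hv
    · intro c u _ hu
      rw [mul_smul_comm]; exact L.smul_mem c hu

/-- Maximal orders exist. -/
theorem exists_maxOrd (R F D : Type) [CommRing R] [IsDomain R] [IsPrincipalIdealRing R] [Field F]
    [CharZero F] [Algebra R F] [IsFractionRing R F] [DivisionRing D] [Algebra R D] [Algebra F D]
    [IsScalarTower R F D] [FiniteDimensional F D] : ∃ Λ : Subalgebra R D, IsMaxOrd R Λ := by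
  classical
  obtain ⟨Λ₀, h₀⟩ := exists_order R F D
  obtain ⟨b, hb⟩ := h₀.exists_basis (F := F)
  -- the dual lattice
  let N : Submodule R D :=
    { carrier := {x | ∀ y ∈ Λ₀, ∃ z : R, rtr F (x * y) = algebraMap R F z}
      add_mem' := fun {x x'} hx hx' y hy => by
        obtain ⟨z, hz⟩ := hx y hy
        obtain ⟨z', hz'⟩ := hx' y hy
        exact ⟨z + z', by rw [add_mul, rtr_add, hz, hz', map_add]⟩
      zero_mem' := fun y _ => ⟨0, by
        rw [zero_mul, map_zero]
        have := rtr_smul (0 : F) (0 : D)
        simpa using this⟩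
      smul_mem' := fun c x hx y hy => by
        obtain ⟨z, hz⟩ := hx y hy
        refine ⟨c * z, ?_⟩
        rw [smul_mul_assoc, ← algebraMap_smul F c (x * y), rtr_smul, hz, map_mul] }
  have hN : ∀ Λ : Subalgebra R D, IsOrd R Λ → Λ₀ ≤ Λ → Subalgebra.toSubmodule Λ ≤ N := by
    intro Λ hΛ hle x hx y hy
    obtain ⟨c, hc⟩ := hΛ.exists_basis (F := F)
    exact ⟨_, (hc.rtr_eq ⟨x * y, Λ.mul_mem hx (hle hy)⟩).symm⟩
  let g : D →ₗ[R] (Fin (finrank F D) → F) :=
    { toFun := fun x i => rtr F (x * b i)
      map_add' := fun x y => by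
        funext i; simp [add_mul, rtr_add]
      map_smul' := fun c x => by
        funext i
        simp only [smul_mul_assoc, Pi.smul_apply, RingHom.id_apply]
        rw [← algebraMap_smul F c (x * b i), rtr_smul, Algebra.smul_def] }
  have hg : Function.Injective g := by
    rw [injective_iff_map_eq_zero]
    intro x hx
    by_contra hne
    have h1 : ∀ i, rtr F (x * b i) = 0 := fun i => congrFun hx i
    have h2 : ∀ y : D, rtr F (x * y) = 0 := by
      intro y
      let T : D →ₗ[F] F :=
        { toFun := fun y => rtr F (x * y)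
          map_add' := fun u v => by rw [mul_add, rtr_add]
          map_smul' := fun c u => by rw [mul_smul_comm, rtr_smul]; rfl }
      have : T = 0 := b.ext fun i => h1 i
      exact LinearMap.congr_fun this y
    have h3 := h2 x⁻¹
    rw [mul_inv_cancel₀ hne] at h3
    exact rtr_one_ne h3
  have hNfg : N.FG := by
    refine Submodule.fg_of_fg_map_injective g hg ?_
    let j : (Fin (finrank F D) → R) →ₗ[R] (Fin (finrank F D) → F) :=
      { toFun := fun v i => algebraMap R F (v i)
        map_add' := fun u v => by funext i; simp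
        map_smul' := fun c v => by funext i; simp [Algebra.smul_def] }
    have hle : N.map g ≤ LinearMap.range j := by
      rintro _ ⟨x, hx, rfl⟩
      have : ∀ i, ∃ z : R, rtr F (x * b i) = algebraMap R F z := fun i => hx _ (hb.mem i)
      choose z hz using this
      exact ⟨z, by funext i; exact (hz i).symm⟩
    have : Module.Finite R (LinearMap.range j) := inferInstance
    have : IsNoetherian R (LinearMap.range j) :=
      isNoetherian_of_isNoetherianRing_of_finite R _
    have : IsNoetherian R (N.map g) := isNoetherian_of_le hle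
    exact Module.Finite.iff_fg.mp inferInstance
  have : Module.Finite R N := Module.Finite.iff_fg.mpr hNfg
  have : IsNoetherian R N := isNoetherian_of_isNoetherianRing_of_finite R N
  have hfgN : ∀ Λ : Subalgebra R D, Subalgebra.toSubmodule Λ ≤ N →
      (Subalgebra.toSubmodule Λ).FG := by
    intro Λ hle
    have : IsNoetherian R (Subalgebra.toSubmodule Λ) := isNoetherian_of_le hle
    exact Module.Finite.iff_fg.mp (inferInstance : Module.Finite R (Subalgebra.toSubmodule Λ))
  obtain ⟨Λ, hle, hmax⟩ := zorn_le_nonempty₀ {Λ : Subalgebra R D | IsOrd R Λ ∧ Λ₀ ≤ Λ} (by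
    intro c hc hchain y hy
    have hdir : DirectedOn (· ≤ ·) c := hchain.directedOn
    have hmem : ∀ x, x ∈ sSup c ↔ ∃ Λ' ∈ c, x ∈ Λ' := by
      intro x
      have hne : Nonempty c := ⟨⟨y, hy⟩⟩
      have hd : Directed (· ≤ ·) (fun t : c => (t : Subalgebra R D)) := by
        intro s t
        obtain ⟨u, hu, h1, h2⟩ := hdir s s.2 t t.2
        exact ⟨⟨u, hu⟩, h1, h2⟩
      rw [sSup_eq_iSup', ← SetLike.mem_coe, Subalgebra.coe_iSup_of_directed hd]
      simp
    refine ⟨sSup c, ⟨⟨hfgN _ ?_, ?_⟩, ?_⟩, fun z hz => le_sSup hz⟩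
    · intro x hx
      obtain ⟨Λ', hΛ', hx'⟩ := (hmem x).mp hx
      exact hN Λ' (hc hΛ').1 (hc hΛ').2 hx'
    · intro x
      obtain ⟨k, hk, hx⟩ := (hc hy).1.den x
      exact ⟨k, hk, le_sSup hy hx⟩
    · exact (hc hy).2.trans (le_sSup hy)) Λ₀ ⟨h₀, le_rfl⟩
  exact ⟨Λ, hmax.prop.1, fun Λ' hΛ' hle' => hmax.le_of_ge ⟨hΛ', hle.trans hle'⟩ hle'⟩

end BB37
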